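import Mathlib

namespace Pool.Agent.Results.MP_d250d1_co.Disproof

open Finset

section General

variable {V : Type} [Fintype V] [DecidableEq V]

/-- The non-backtracking matrix of a finite simple graph, indexed by the oriented edges. -/
def nbMatrix (G : SimpleGraph V) [DecidableRel G.Adj] : Matrix G.Dart G.Dart ℂ :=
  Matrix.of fun d e => if d.snd = e.fst ∧ e.snd ≠ d.fst then 1 else 0

/-- The moduli of the eigenvalues of the non-backtracking matrix (roots of the characteristic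
polynomial, with multiplicity), in non-increasing order. -/
noncomputable def nbModuli (G : SimpleGraph V) [DecidableRel G.Adj] : List ℝ :=
  ((nbMatrix G).charpoly.roots.map fun z : ℂ => ‖z‖).sort (· ≥ ·)

variable (G : SimpleGraph V) [DecidableRel G.Adj]

/-- outgoing sum at a vertex -/
noncomputable def outS (g : G.Dart → ℂ) (v : V) : ℂ := ∑ e : G.Dart, if e.fst = v then g e else 0

omit [Fintype V] [DecidableEq V] [DecidableRel G.Adj] in
lemma dart_eq_symm (d e : G.Dart) (h1 : e.fst = d.snd) (h2 : e.snd = d.fst) : e = d.symm := by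
  apply SimpleGraph.Dart.ext
  simp [SimpleGraph.Dart.symm, Prod.ext_iff, h1, h2]

lemma mulVec_eq (g : G.Dart → ℂ) (d : G.Dart) :
    (nbMatrix G).mulVec g d = outS G g d.snd - g d.symm := by
  have h : ∀ e : G.Dart, (nbMatrix G d e) * g e
      = (if e.fst = d.snd then g e else 0) - (if e = d.symm then g e else 0) := by
    intro e
    simp only [nbMatrix, Matrix.of_apply]
    by_cases h1 : e.fst = d.snd
    · by_cases h2 : e.snd = d.fst
      · have := dart_eq_symm G d e h1 h2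
        subst this
        simp
      · have h3 : e ≠ d.symm := by
          rintro rfl
          exact h2 rfl
        simp [h1, h2, h3]
    · have h3 : e ≠ d.symm := by
        rintro rfl
        exact h1 rfl
      simp [h3, h1, Ne.symm h1]
  unfold Matrix.mulVec dotProduct outS
  simp only [h, Finset.sum_sub_distrib, Finset.sum_ite_eq', Finset.mem_univ, if_true]

lemma eig_dart {g : G.Dart → ℂ} {μ : ℂ} (h : (nbMatrix G).mulVec g = μ • g) (d : G.Dart) :
    (μ ^ 2 - 1) * g d = μ * outS G g d.snd - outS G g d.fst := by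
  have h1 : outS G g d.snd - g d.symm = μ * g d := by
    rw [← mulVec_eq, h]; rfl
  have h2 : outS G g d.fst - g d = μ * g d.symm := by
    have := mulVec_eq G g d.symm
    rw [h] at this
    simpa using this.symm
  linear_combination -μ * h1 + h2

lemma sum_dart_fst (F : V → ℂ) (v : V) :
    (∑ e : G.Dart, if e.fst = v then F e.snd else 0) = ∑ w, if G.Adj v w then F w else 0 := by
  rw [← Finset.sum_filter, ← Finset.sum_filter]
  refine Finset.sum_bij (fun e _ => e.snd) ?_ ?_ ?_ ?_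
  · intro e he
    simp only [mem_filter, mem_univ, true_and] at he ⊢
    exact he ▸ e.adj
  · intro a ha b hb hab
    simp only [mem_filter, mem_univ, true_and] at ha hb
    apply SimpleGraph.Dart.ext
    exact Prod.ext (ha.trans hb.symm) hab
  · intro w hw
    simp only [mem_filter, mem_univ, true_and] at hw
    exact ⟨⟨(v, w), hw⟩, by simp, rfl⟩
  · intro e _; rfl

lemma eig_vertex {g : G.Dart → ℂ} {μ : ℂ} (h : (nbMatrix G).mulVec g = μ • g) (v : V) :
    (∑ w, if G.Adj v w then (μ * outS G g w - outS G g v) else 0)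
      = (μ ^ 2 - 1) * outS G g v := by
  rw [← sum_dart_fst G (fun w => μ * outS G g w - outS G g v)]
  conv_rhs => rw [outS, Finset.mul_sum]
  refine Finset.sum_congr rfl fun e _ => ?_
  by_cases he : e.fst = v
  · simp only [he, if_true]
    rw [eig_dart G h e, he]
  · simp [he]

/-- converse: a solution of the vertex equation gives an eigenvector -/
lemma eig_of_vertex {S : V → ℂ} {μ : ℂ}
    (h : ∀ v, (∑ w, if G.Adj v w then (μ * S w - S v) else 0) = (μ ^ 2 - 1) * S v) :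
    (nbMatrix G).mulVec (fun d => μ * S d.snd - S d.fst)
      = μ • (fun d => μ * S d.snd - S d.fst) := by
  funext d
  rw [mulVec_eq]
  have : outS G (fun d : G.Dart => μ * S d.snd - S d.fst) d.snd = (μ ^ 2 - 1) * S d.snd := by
    rw [← h d.snd, ← sum_dart_fst G (fun w => μ * S w - S d.snd), outS]
    refine Finset.sum_congr rfl fun e _ => ?_
    by_cases he : e.fst = d.snd
    · simp [he]
    · simp [he]
  rw [this]
  simp only [SimpleGraph.Dart.symm, Prod.fst_swap, Prod.snd_swap, Pi.smul_apply, smul_eq_mul]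
  ring

/-- pairing with the reversed eigenvector kills the range of `B - μ` -/
lemma pairing {g₀ : G.Dart → ℂ} {μ : ℂ} (h : (nbMatrix G).mulVec g₀ = μ • g₀) (x : G.Dart → ℂ) :
    ∑ d : G.Dart, g₀ d.symm * ((nbMatrix G).mulVec x d - μ * x d) = 0 := by
  have hB : ∀ d e : G.Dart, nbMatrix G d.symm e = nbMatrix G e.symm d := by
    intro d e
    simp only [nbMatrix, Matrix.of_apply, SimpleGraph.Dart.symm, Prod.fst_swap, Prod.snd_swap]
    congr 1
    simp only [eq_iff_iff]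
    constructor
    · rintro ⟨h1, h2⟩; exact ⟨h1.symm, Ne.symm h2⟩
    · rintro ⟨h1, h2⟩; exact ⟨h1.symm, Ne.symm h2⟩
  have h1 : ∑ d : G.Dart, g₀ d.symm * (nbMatrix G).mulVec x d = ∑ e : G.Dart, μ * g₀ e.symm * x e := by
    simp only [Matrix.mulVec, dotProduct, Finset.mul_sum]
    rw [Finset.sum_comm]
    refine Finset.sum_congr rfl fun e _ => ?_
    have h2 : (nbMatrix G).mulVec g₀ e.symm = μ * g₀ e.symm := by rw [h]; rfl
    have h3 : ∑ d : G.Dart, g₀ d.symm * nbMatrix G d e = μ * g₀ e.symm := by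
      rw [← h2]
      simp only [Matrix.mulVec, dotProduct]
      rw [← Equiv.sum_comp (Function.Involutive.toPerm _ SimpleGraph.Dart.symm_involutive)]
      refine Finset.sum_congr rfl fun d _ => ?_
      simp only [Function.Involutive.coe_toPerm, SimpleGraph.Dart.symm_symm]
      rw [hB d e]; ring
    rw [← h3, Finset.sum_mul]
    refine Finset.sum_congr rfl fun d _ => ?_
    ring
  simp only [mul_sub, Finset.sum_sub_distrib, h1]
  rw [sub_eq_zero]
  refine Finset.sum_congr rfl fun d _ => ?_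
  ring

lemma mult_one {g₀ : G.Dart → ℂ} {μ : ℂ} (h : (nbMatrix G).mulVec g₀ = μ • g₀)
    (h0 : ∑ d : G.Dart, g₀ d.symm * g₀ d ≠ 0)
    (h1 : ∀ g : G.Dart → ℂ, (nbMatrix G).mulVec g = μ • g → ∃ t : ℂ, g = t • g₀) :
    (nbMatrix G).charpoly.rootMultiplicity μ = 1 := by
  rw [← Matrix.charpoly_mulVecLin, ← LinearMap.finrank_maxGenEigenspace_eq]
  have hg0 : g₀ ≠ 0 := by
    rintro rfl
    simp at h0
  have key : (Module.End.maxGenEigenspace (nbMatrix G).mulVecLin μ) = Submodule.span ℂ {g₀} := by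
    apply le_antisymm
    · intro x hx
      rw [Module.End.mem_maxGenEigenspace] at hx
      obtain ⟨k, hk⟩ := hx
      induction k generalizing x with
      | zero =>
        simp at hk
        simp [hk]
      | succ k ih =>
        have h2 := ih (x := ((nbMatrix G).mulVecLin - μ • (1 : Module.End ℂ (G.Dart → ℂ)) :
            Module.End ℂ (G.Dart → ℂ)) x) (by
          rw [← hk, pow_succ]; rfl)
        rw [Submodule.mem_span_singleton] at h2
        obtain ⟨t, ht⟩ := h2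
        have h3 : ∀ d, (nbMatrix G).mulVec x d - μ * x d = t * g₀ d := by
          intro d
          have := congrFun ht d
          simp at this
          exact this.symm
        have h4 := pairing G h x
        simp only [h3] at h4
        have h5 : t * ∑ d : G.Dart, g₀ d.symm * g₀ d = 0 := by
          rw [Finset.mul_sum, ← h4]
          refine Finset.sum_congr rfl fun d _ => ?_
          ring
        have ht0 : t = 0 := by
          rcases mul_eq_zero.1 h5 with h6 | h6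
          · exact h6
          · exact absurd h6 h0
        obtain ⟨s, hs⟩ := h1 x (by
          funext d
          have := h3 d
          rw [ht0, zero_mul, sub_eq_zero] at this
          simpa using this)
        rw [Submodule.mem_span_singleton]
        exact ⟨s, hs.symm⟩
    · rw [Submodule.span_singleton_le_iff_mem, Module.End.mem_maxGenEigenspace]
      refine ⟨1, ?_⟩
      simp only [pow_one, LinearMap.sub_apply, Matrix.mulVecLin_apply, h]
      simp
  rw [key, finrank_span_singleton hg0]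

lemma exists_eigvec {μ : ℂ} (h : μ ∈ (nbMatrix G).charpoly.roots) :
    ∃ g : G.Dart → ℂ, g ≠ 0 ∧ (nbMatrix G).mulVec g = μ • g := by
  have h1 : (nbMatrix G).charpoly.IsRoot μ := Polynomial.isRoot_of_mem_roots h
  rw [← Matrix.charpoly_mulVecLin, ← Module.End.hasEigenvalue_iff_isRoot_charpoly] at h1
  obtain ⟨g, hg⟩ := h1.exists_hasEigenvector
  exact ⟨g, hg.2, by simpa using hg.apply_eq_smul⟩

lemma nbModuli_length : (nbModuli G).length = Fintype.card G.Dart := by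
  unfold nbModuli
  rw [Multiset.length_sort, Multiset.card_map, IsAlgClosed.card_roots_eq_natDegree,
    Matrix.charpoly_natDegree_eq_dim]

lemma moduli_of_gap {g₀ : G.Dart → ℂ} {ρ R : ℝ} (hR : 0 < R) (hρ : R ≤ ρ)
    (h : (nbMatrix G).mulVec g₀ = (ρ : ℂ) • g₀)
    (h0 : ∑ d : G.Dart, g₀ d.symm * g₀ d ≠ 0)
    (h1 : ∀ (μ : ℂ) (g : G.Dart → ℂ), R ≤ ‖μ‖ → g ≠ 0 → (nbMatrix G).mulVec g = μ • g →
      μ = ρ ∧ ∃ t : ℂ, g = t • g₀) :
    (nbModuli G)[0]? = some ρ ∧ ∃ x, (nbModuli G)[1]? = some x ∧ x < R := by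
  have hm : (nbMatrix G).charpoly.rootMultiplicity (ρ : ℂ) = 1 := by
    apply mult_one G h h0
    intro g hg
    by_cases hg0 : g = 0
    · exact ⟨0, by simp [hg0]⟩
    · refine (h1 ρ g ?_ hg0 hg).2
      rw [Complex.norm_real, Real.norm_eq_abs]
      exact hρ.trans (le_abs_self ρ)
  have hne : (nbMatrix G).charpoly ≠ 0 := (Matrix.charpoly_monic _).ne_zero
  classical
  have hc : (nbMatrix G).charpoly.roots.count (ρ : ℂ) = 1 := by
    rw [Polynomial.count_roots, hm]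
  have hmem : (ρ : ℂ) ∈ (nbMatrix G).charpoly.roots := by
    rw [← Multiset.count_pos, hc]; exact one_pos
  obtain ⟨t, ht⟩ := Multiset.exists_cons_of_mem hmem
  have hnot : (ρ : ℂ) ∉ t := by
    rw [ht, Multiset.count_cons_self] at hc
    rw [← Multiset.count_eq_zero]
    omega
  have hlt : ∀ z ∈ t, ‖z‖ < R := by
    intro z hz
    by_contra hcon
    push Not at hcon
    obtain ⟨g, hg, hg'⟩ := exists_eigvec G (μ := z) (by rw [ht]; exact Multiset.mem_cons_of_mem hz)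
    have := (h1 z g hcon hg hg').1
    rw [this] at hz
    exact hnot hz
  have hρ0 : 0 < ρ := hR.trans_le hρ
  have hnorm : ‖(ρ : ℂ)‖ = ρ := by
    rw [Complex.norm_real, Real.norm_eq_abs, abs_of_pos hρ0]
  have hsort : nbModuli G = ρ :: (t.map fun z : ℂ => ‖z‖).sort (· ≥ ·) := by
    unfold nbModuli
    rw [ht, Multiset.map_cons, hnorm]
    apply Multiset.sort_cons
    intro b hb
    rw [Multiset.mem_map] at hb
    obtain ⟨z, hz, rfl⟩ := hb
    exact ((hlt z hz).trans_le hρ).le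
  have hcard : 1 < Fintype.card G.Dart := by
    have hd : Nonempty G.Dart := by
      by_contra hcon
      rw [not_nonempty_iff] at hcon
      apply h0
      simp
    obtain ⟨d⟩ := hd
    exact Fintype.one_lt_card_iff.2 ⟨d, d.symm, (SimpleGraph.Dart.symm_ne d).symm⟩
  have hlen := nbModuli_length G
  rw [hsort] at hlen ⊢
  refine ⟨rfl, ?_⟩
  rcases hl : (t.map fun z : ℂ => ‖z‖).sort (· ≥ ·) with _ | ⟨a, l⟩
  · rw [hl] at hlen
    simp only [List.length_cons, List.length_nil] at hlen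
    omega
  · have ha : a ∈ (t.map fun z : ℂ => ‖z‖).sort (· ≥ ·) := by rw [hl]; simp
    rw [Multiset.mem_sort, Multiset.mem_map] at ha
    obtain ⟨z, hz, rfl⟩ := ha
    exact ⟨‖z‖, by simp, hlt z hz⟩

end General

section Explicit

variable {I P : Type} (κ : P → Option I) (n : P → ℕ)

/-- vertices: centres `Option I` (the hub is `none`) and the inner vertices of the petals -/
abbrev Vx (I P : Type) (n : P → ℕ) : Type := Option I ⊕ (Σ p : P, Fin (n p))

/-- adjacency of the petal graph -/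
def adjR : Vx I P n → Vx I P n → Prop
  | .inl a, .inl b => (a = none ∧ b ≠ none) ∨ (a ≠ none ∧ b = none)
  | .inl a, .inr x => κ x.1 = a ∧ (x.2.val = 0 ∨ x.2.val + 1 = n x.1)
  | .inr x, .inl a => κ x.1 = a ∧ (x.2.val = 0 ∨ x.2.val + 1 = n x.1)
  | .inr x, .inr y => x.1 = y.1 ∧ (x.2.val + 1 = y.2.val ∨ y.2.val + 1 = x.2.val)

/-- the petal graph -/
def petalGraph : SimpleGraph (Vx I P n) where
  Adj := adjR κ n
  symm := ⟨by
    rintro (a | x) (b | y) h
    · simp only [adjR] at h ⊢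
      tauto
    · exact h
    · exact h
    · simp only [adjR] at h ⊢
      exact ⟨h.1.symm, h.2.symm⟩⟩
  loopless := ⟨by
    rintro (a | x) h
    · simp only [adjR] at h
      tauto
    · simp only [adjR] at h
      omega⟩

variable [Fintype I] [DecidableEq I] [Fintype P] [DecidableEq P]

instance petalDec : DecidableRel (petalGraph κ n).Adj := fun x y => by
  rcases x with a | x <;> rcases y with b | y <;> simp only [petalGraph, adjR] <;> infer_instance

omit [Fintype I] [DecidableEq I] [Fintype P] [DecidableEq P] in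
lemma endsum {M : Type} [AddCommMonoid M] {m : ℕ} (hm : 2 ≤ m) (f : Fin m → M) :
    (∑ j : Fin m, if (j.val = 0 ∨ j.val + 1 = m) then f j else 0)
      = f ⟨0, by omega⟩ + f ⟨m - 1, by omega⟩ := by
  rw [← Finset.sum_filter]
  have : (univ.filter fun j : Fin m => (j.val = 0 ∨ j.val + 1 = m))
      = {⟨0, by omega⟩, ⟨m - 1, by omega⟩} := by
    ext j
    simp only [mem_filter, mem_univ, true_and, mem_insert, mem_singleton, Fin.ext_iff]
    omega
  rw [this, Finset.sum_pair]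
  simp only [ne_eq, Fin.ext_iff]
  omega

lemma sum_center {M : Type} [AddCommMonoid M] (hn : ∀ p, 2 ≤ n p) (F : Vx I P n → M)
    (a : Option I) :
    (∑ w, if (petalGraph κ n).Adj (.inl a) w then F w else 0)
      = (∑ b : Option I, if (a = none ∧ b ≠ none) ∨ (a ≠ none ∧ b = none) then F (.inl b) else 0)
        + ∑ p : P, if κ p = a then
          (F (.inr ⟨p, ⟨0, by have := hn p; omega⟩⟩)
            + F (.inr ⟨p, ⟨n p - 1, by have := hn p; omega⟩⟩)) else 0 := by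
  rw [Fintype.sum_sum_type, Fintype.sum_sigma]
  have h2 : ∀ p : P, (∑ j : Fin (n p),
      if (petalGraph κ n).Adj (.inl a) (.inr ⟨p, j⟩) then F (.inr ⟨p, j⟩) else 0)
      = if κ p = a then
          (F (.inr ⟨p, ⟨0, by have := hn p; omega⟩⟩)
            + F (.inr ⟨p, ⟨n p - 1, by have := hn p; omega⟩⟩)) else 0 := by
    intro p
    by_cases h : κ p = a
    · simp only [petalGraph, adjR, h, true_and, if_true]
      exact endsum (hn p) (fun j => F (.inr ⟨p, j⟩))
    · simp [petalGraph, adjR, h]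
  rw [Finset.sum_congr rfl fun p _ => h2 p]
  rfl

/-- the cyclic sequence of values along a petal -/
def sq {M : Type} (F : Vx I P n → M) (p : P) (i : ℕ) : M :=
  if h : 0 < i ∧ i ≤ n p then F (.inr ⟨p, ⟨i - 1, by omega⟩⟩) else F (.inl (κ p))

lemma sum_inner {M : Type} [AddCommMonoid M] (hn : ∀ p, 2 ≤ n p) (F : Vx I P n → M)
    (p : P) (j : Fin (n p)) :
    (∑ w, if (petalGraph κ n).Adj (.inr ⟨p, j⟩) w then F w else 0)
      = sq κ n F p j.val + sq κ n F p (j.val + 2) := by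
  rw [Fintype.sum_sum_type]
  have h1 : (∑ b : Option I, if (petalGraph κ n).Adj (.inr ⟨p, j⟩) (.inl b) then F (.inl b) else 0)
      = (if j.val = 0 then F (.inl (κ p)) else 0) + (if j.val + 1 = n p then F (.inl (κ p)) else 0) := by
    rw [Finset.sum_eq_single (κ p)]
    · simp only [petalGraph, adjR, true_and]
      have := hn p
      by_cases h0 : j.val = 0
      · have h1 : ¬ (j.val + 1 = n p) := by omega
        rw [if_pos (Or.inl h0), if_pos h0, if_neg h1, add_zero]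
      · simp [h0]
    · intro b _ hb
      simp [petalGraph, adjR, Ne.symm hb]
    · simp
  have h2 : (∑ x : (Σ q : P, Fin (n q)),
      if (petalGraph κ n).Adj (.inr ⟨p, j⟩) (.inr x) then F (.inr x) else 0)
      = (if h : j.val + 1 < n p then F (.inr ⟨p, ⟨j.val + 1, h⟩⟩) else 0)
        + (if h : 0 < j.val then F (.inr ⟨p, ⟨j.val - 1, by omega⟩⟩) else 0) := by
    rw [Fintype.sum_sigma, Finset.sum_eq_single p]
    · simp only [petalGraph, adjR, true_and]
      have h3 : ∀ k : Fin (n p), (if (j.val + 1 = k.val ∨ k.val + 1 = j.val) then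
          F (.inr ⟨p, k⟩) else 0) = (if j.val + 1 = k.val then F (.inr ⟨p, k⟩) else 0)
            + (if k.val + 1 = j.val then F (.inr ⟨p, k⟩) else 0) := by
        intro k
        by_cases h4 : j.val + 1 = k.val
        · have h5 : ¬ (k.val + 1 = j.val) := by omega
          simp [h4, h5]
        · simp [h4]
      simp only [h3, Finset.sum_add_distrib]
      congr 1
      · by_cases h : j.val + 1 < n p
        · rw [dif_pos h, Finset.sum_eq_single (⟨j.val + 1, h⟩ : Fin (n p))]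
          · simp
          · intro k _ hk
            rw [if_neg]
            intro h6
            exact hk (Fin.ext h6.symm)
          · simp
        · rw [dif_neg h]
          apply Finset.sum_eq_zero
          intro k _
          rw [if_neg]
          have := k.2
          omega
      · by_cases h : 0 < j.val
        · rw [dif_pos h, Finset.sum_eq_single (⟨j.val - 1, by omega⟩ : Fin (n p))]
          · rw [if_pos]
            simp only
            omega
          · intro k _ hk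
            rw [if_neg]
            intro h6
            exact hk (Fin.ext (by simp only; omega))
          · simp
        · rw [dif_neg h]
          apply Finset.sum_eq_zero
          intro k _
          rw [if_neg]
          omega
    · intro q _ hq
      apply Finset.sum_eq_zero
      intro k _
      simp [petalGraph, adjR, Ne.symm hq]
    · simp
  rw [h1, h2]
  have hj := j.2
  have hnp := hn p
  unfold sq
  by_cases h0 : j.val = 0
  · by_cases h7 : j.val + 1 = n p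
    · omega
    · have h8 : j.val + 1 < n p := by omega
      have h9 : ¬ (0 < j.val ∧ j.val ≤ n p) := by omega
      have h10 : 0 < j.val + 2 ∧ j.val + 2 ≤ n p := by omega
      have h11 : ¬ 0 < j.val := by omega
      rw [dif_neg h9, dif_pos h10, dif_pos h8, dif_neg h11, if_pos h0, if_neg h7]
      simp
  · by_cases h7 : j.val + 1 = n p
    · have h8 : ¬ (j.val + 1 < n p) := by omega
      have h9 : (0 < j.val ∧ j.val ≤ n p) := by omega
      have h10 : ¬ (0 < j.val + 2 ∧ j.val + 2 ≤ n p) := by omega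
      have h11 : 0 < j.val := by omega
      rw [dif_pos h9, dif_neg h10, dif_neg h8, dif_pos h11, if_neg h0, if_pos h7, zero_add,
        zero_add, add_comm]
    · have h8 : j.val + 1 < n p := by omega
      have h9 : (0 < j.val ∧ j.val ≤ n p) := by omega
      have h10 : (0 < j.val + 2 ∧ j.val + 2 ≤ n p) := by omega
      have h11 : 0 < j.val := by omega
      rw [dif_pos h9, dif_pos h10, dif_pos h8, dif_pos h11, if_neg h0, if_neg h7, add_zero,
        zero_add, add_comm]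
      rfl

end Explicit

lemma pow_ne_one_of_norm {μ : ℂ} (hμ : 1 < ‖μ‖) (m : ℕ) (hm : m ≠ 0) : μ ^ m ≠ 1 := by
  intro h
  have h1 : ‖μ‖ ^ m = 1 := by rw [← norm_pow, h, norm_one]
  have h2 : 1 < ‖μ‖ ^ m := one_lt_pow₀ hμ hm
  linarith

lemma pow_add_one_ne {μ : ℂ} (hμ : 1 < ‖μ‖) (m : ℕ) (hm : m ≠ 0) : μ ^ m + 1 ≠ 0 := by
  intro h
  have h0 : μ ^ m = -1 := by linear_combination h
  have h1 : ‖μ‖ ^ m = 1 := by rw [← norm_pow, h0, norm_neg, norm_one]
  have h2 : 1 < ‖μ‖ ^ m := one_lt_pow₀ hμ hm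
  linarith

lemma petal_rec {μ : ℂ} (hμ : 1 < ‖μ‖) {m : ℕ} {s : ℕ → ℂ} {c : ℂ}
    (h : ∀ j < m, μ * (s j + s (j + 2)) = (μ ^ 2 + 1) * s (j + 1))
    (h0 : s 0 = c) (h1 : s (m + 1) = c) :
    μ * s 1 - c = (μ ^ 2 - 1) * c / (μ ^ (m + 1) + 1)
      ∧ μ * s m - c = (μ ^ 2 - 1) * c / (μ ^ (m + 1) + 1) := by
  have hd : ∀ j, j ≤ m → μ * s (j + 1) - s j = μ ^ j * (μ * s 1 - s 0) := by
    intro j
    induction j with
    | zero => intro _; simp
    | succ j ih =>
      intro hj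
      have h2 := ih (by omega)
      have h3 := h j (by omega)
      rw [pow_succ]
      linear_combination μ * h2 + h3
  have he : ∀ j, j ≤ m → μ * s 0 - s 1 = μ ^ j * (μ * s j - s (j + 1)) := by
    intro j
    induction j with
    | zero => intro _; simp
    | succ j ih =>
      intro hj
      have h2 := ih (by omega)
      have h3 := h j (by omega)
      rw [h2, pow_succ]
      linear_combination μ ^ j * h3
  have h4 := hd m le_rfl
  have h5 := he m le_rfl
  rw [h1, h0] at h4 h5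
  have hne1 : μ ^ (m + 1) ≠ 1 := pow_ne_one_of_norm hμ _ (by omega)
  have hne2 : μ ^ (m + 1) + 1 ≠ 0 := pow_add_one_ne hμ _ (by omega)
  have h6 : (μ ^ (m + 1) - 1) * ((μ * s 1 - c) - (μ * s m - c)) = 0 := by
    rw [pow_succ]
    linear_combination μ * h5 - μ * h4
  have h7 : (μ * s 1 - c) - (μ * s m - c) = 0 := by
    rcases mul_eq_zero.1 h6 with h8 | h8
    · exact absurd (sub_eq_zero.1 h8) hne1
    · exact h8
  have h9 : (μ ^ (m + 1) + 1) * (μ * s 1 - c) = (μ ^ 2 - 1) * c := by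
    rw [pow_succ]
    linear_combination -μ * h4 + h7
  have h10 : μ * s 1 - c = (μ ^ 2 - 1) * c / (μ ^ (m + 1) + 1) := by
    rw [eq_div_iff hne2]; linear_combination h9
  refine ⟨h10, ?_⟩
  rw [← h10]
  linear_combination -h7

lemma petal_zero {μ : ℂ} (hμ : 1 < ‖μ‖) {m : ℕ} {s : ℕ → ℂ}
    (h : ∀ j < m, μ * (s j + s (j + 2)) = (μ ^ 2 + 1) * s (j + 1))
    (h0 : s 0 = 0) (h1 : s (m + 1) = 0) : ∀ j ≤ m, s j = 0 := by
  have hμ0 : μ ≠ 0 := by
    rintro rfl
    simp at hμ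
    linarith
  have h2 := (petal_rec hμ h h0 h1).1
  have h3 : s 1 = 0 := by
    simp at h2
    tauto
  have : ∀ j, (j ≤ m → s j = 0) ∧ (j + 1 ≤ m → s (j + 1) = 0) := by
    intro j
    induction j with
    | zero => exact ⟨fun _ => h0, fun _ => h3⟩
    | succ j ih =>
      refine ⟨fun hj => ih.2 hj, fun hj => ?_⟩
      have h4 := h j (by omega)
      rw [ih.1 (by omega), ih.2 (by omega)] at h4
      have h5 : μ * s (j + 2) = 0 := by linear_combination h4
      rcases mul_eq_zero.1 h5 with h6 | h6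
      · exact absurd h6 hμ0
      · exact h6
  exact fun j hj => (this j).1 hj

section Eq

variable {I P : Type} (κ : P → Option I) (n : P → ℕ)
variable [Fintype I] [DecidableEq I] [Fintype P] [DecidableEq P]

/-- the petal sum at a centre -/
noncomputable def Qs (μ : ℂ) (a : Option I) : ℂ :=
  ∑ p : P, if κ p = a then 2 / (μ ^ (n p + 1) + 1) else 0

/-- the vertex equation -/
def VEq (μ : ℂ) (S : Vx I P n → ℂ) : Prop :=
  ∀ v, (∑ w, if (petalGraph κ n).Adj v w then (μ * S w - S v) else 0) = (μ ^ 2 - 1) * S v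

variable {κ n}

lemma veq_inner (hn : ∀ p, 2 ≤ n p) {μ : ℂ} {S : Vx I P n → ℂ} (h : VEq κ n μ S) (p : P) :
    ∀ j < n p, μ * (sq κ n S p j + sq κ n S p (j + 2)) = (μ ^ 2 + 1) * sq κ n S p (j + 1) := by
  intro j hj
  have h1 := h (.inr ⟨p, ⟨j, hj⟩⟩)
  rw [sum_inner κ n hn (fun w => μ * S w - S (.inr ⟨p, ⟨j, hj⟩⟩)) p ⟨j, hj⟩] at h1
  have h2 : ∀ i, sq κ n (fun w => μ * S w - S (.inr ⟨p, ⟨j, hj⟩⟩)) p i
      = μ * sq κ n S p i - S (.inr ⟨p, ⟨j, hj⟩⟩) := by
    intro i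
    unfold sq
    split_ifs <;> rfl
  have h3 : sq κ n S p (j + 1) = S (.inr ⟨p, ⟨j, hj⟩⟩) := by
    unfold sq
    rw [dif_pos ⟨by omega, by omega⟩]
    rfl
  rw [h2, h2] at h1
  rw [h3]
  simp only at h1
  linear_combination h1

omit [Fintype I] [DecidableEq I] [Fintype P] [DecidableEq P] in
lemma sq_zero {M : Type} (S : Vx I P n → M) (p : P) : sq κ n S p 0 = S (.inl (κ p)) := by
  unfold sq
  rw [dif_neg (by omega)]

omit [Fintype I] [DecidableEq I] [Fintype P] [DecidableEq P] in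
lemma sq_last {M : Type} (S : Vx I P n → M) (p : P) :
    sq κ n S p (n p + 1) = S (.inl (κ p)) := by
  unfold sq
  rw [dif_neg (by omega)]

lemma veq_center (hn : ∀ p, 2 ≤ n p) {μ : ℂ} (hμ : 1 < ‖μ‖) {S : Vx I P n → ℂ}
    (h : VEq κ n μ S) (a : Option I) :
    (∑ b : Option I, if (a = none ∧ b ≠ none) ∨ (a ≠ none ∧ b = none) then
        (μ * S (.inl b) - S (.inl a)) else 0)
      + (μ ^ 2 - 1) * Qs κ n μ a * S (.inl a) = (μ ^ 2 - 1) * S (.inl a) := by
  have h1 := h (.inl a)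
  rw [sum_center κ n hn] at h1
  rw [← h1]
  congr 1
  unfold Qs
  rw [mul_assoc, Finset.sum_mul, Finset.mul_sum]
  refine Finset.sum_congr rfl fun p _ => ?_
  by_cases hp : κ p = a
  · rw [if_pos hp, if_pos hp]
    have hnp := hn p
    have h2 := petal_rec hμ (veq_inner hn h p) (sq_zero S p) (sq_last S p)
    have h3 : sq κ n S p 1 = S (.inr ⟨p, ⟨0, by omega⟩⟩) := by
      unfold sq
      rw [dif_pos ⟨by omega, by omega⟩]
    have h4 : sq κ n S p (n p) = S (.inr ⟨p, ⟨n p - 1, by omega⟩⟩) := by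
      unfold sq
      rw [dif_pos ⟨by omega, by omega⟩]
    rw [h3, h4, hp] at h2
    rw [h2.1, h2.2]
    ring
  · simp [hp]

end Eq

section Eq

variable {I P : Type} {κ : P → Option I} {n : P → ℕ}
variable [Fintype I] [DecidableEq I] [Fintype P] [DecidableEq P]

/-- denominators -/
noncomputable def dn (κ : P → Option I) (n : P → ℕ) (μ : ℂ) (i : I) : ℂ :=
  μ ^ 2 - (μ ^ 2 - 1) * Qs κ n μ (some i)

/-- the hub function -/
noncomputable def Phi (κ : P → Option I) (n : P → ℕ) (μ : ℂ) : ℂ :=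
  Qs κ n μ none + ∑ i : I, Qs κ n μ (some i) / dn κ n μ i

lemma veq_some (hn : ∀ p, 2 ≤ n p) {μ : ℂ} (hμ : 1 < ‖μ‖) {S : Vx I P n → ℂ}
    (h : VEq κ n μ S) (i : I) :
    μ * S (.inl none) = dn κ n μ i * S (.inl (some i)) := by
  have h1 := veq_center hn hμ h (some i)
  rw [Finset.sum_eq_single none] at h1
  · simp at h1
    unfold dn
    linear_combination h1
  · intro b _ hb
    rw [if_neg]
    simp [hb]
  · simp

lemma veq_none (hn : ∀ p, 2 ≤ n p) {μ : ℂ} (hμ : 1 < ‖μ‖) {S : Vx I P n → ℂ}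
    (h : VEq κ n μ S) :
    (∑ i : I, (μ * S (.inl (some i)) - S (.inl none)))
      + (μ ^ 2 - 1) * Qs κ n μ none * S (.inl none) = (μ ^ 2 - 1) * S (.inl none) := by
  have h1 := veq_center hn hμ h none
  rw [Fintype.sum_option] at h1
  simpa using h1

lemma veq_hub (hn : ∀ p, 2 ≤ n p) {μ : ℂ} (hμ : 1 < ‖μ‖) (hd : ∀ i, dn κ n μ i ≠ 0)
    {S : Vx I P n → ℂ} (h : VEq κ n μ S) :
    (Phi κ n μ - 1) * S (.inl none) = 0 := by
  have h1 := veq_none hn hμ h
  have h2 : ∀ i : I, μ * S (.inl (some i)) - S (.inl none)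
      = (μ ^ 2 - 1) * S (.inl none) * (Qs κ n μ (some i) / dn κ n μ i) := by
    intro i
    have h3 := veq_some hn hμ h i
    have h4 := hd i
    have h5 : dn κ n μ i * (μ * S (.inl (some i)) - S (.inl none))
        = dn κ n μ i * ((μ ^ 2 - 1) * S (.inl none) * (Qs κ n μ (some i) / dn κ n μ i)) := by
      have h6 : dn κ n μ i * ((μ ^ 2 - 1) * S (.inl none) * (Qs κ n μ (some i) / dn κ n μ i))
          = (μ ^ 2 - 1) * S (.inl none) * Qs κ n μ (some i) := by
        field_simp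
      rw [h6]
      have h7 : dn κ n μ i = μ ^ 2 - (μ ^ 2 - 1) * Qs κ n μ (some i) := rfl
      have h8 : dn κ n μ i * (μ * S (.inl (some i)) - S (.inl none))
        = μ * (dn κ n μ i * S (.inl (some i))) - dn κ n μ i * S (.inl none) := by ring
      rw [h8, ← h3, h7]
      ring
    exact mul_left_cancel₀ h4 h5
  rw [Finset.sum_congr rfl fun i _ => h2 i, ← Finset.mul_sum] at h1
  have hm : μ ^ 2 - 1 ≠ 0 := sub_ne_zero.2 (pow_ne_one_of_norm hμ 2 (by norm_num))
  have h9 : (μ ^ 2 - 1) * ((Phi κ n μ - 1) * S (.inl none)) = 0 := by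
    unfold Phi
    linear_combination h1
  rcases mul_eq_zero.1 h9 with h10 | h10
  · exact absurd h10 hm
  · exact h10

lemma veq_zero (hn : ∀ p, 2 ≤ n p) {μ : ℂ} (hμ : 1 < ‖μ‖) (hd : ∀ i, dn κ n μ i ≠ 0)
    {S : Vx I P n → ℂ} (h : VEq κ n μ S) (h0 : S (.inl none) = 0) : S = 0 := by
  have hμ0 : μ ≠ 0 := by
    rintro rfl
    simp at hμ
    linarith
  have hc : ∀ a : Option I, S (.inl a) = 0 := by
    rintro (_ | i)
    · exact h0
    · have h1 := veq_some hn hμ h i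
      rw [h0, mul_zero] at h1
      rcases mul_eq_zero.1 h1.symm with h2 | h2
      · exact absurd h2 (hd i)
      · exact h2
  funext v
  rcases v with a | ⟨p, j⟩
  · exact hc a
  · have h1 := petal_zero hμ (veq_inner hn h p) (by rw [sq_zero, hc]) (by rw [sq_last, hc])
      (j.val + 1) (by omega)
    unfold sq at h1
    rw [dif_pos ⟨by omega, by omega⟩] at h1
    exact h1

/-- Uniqueness: the eigenvectors of the non-backtracking matrix. -/
lemma eig_unique (hn : ∀ p, 2 ≤ n p) {μ : ℂ} (hμ : 1 < ‖μ‖) (hd : ∀ i, dn κ n μ i ≠ 0)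
    {g : (petalGraph κ n).Dart → ℂ} (hg : (nbMatrix (petalGraph κ n)).mulVec g = μ • g)
    (hg0 : g ≠ 0) : outS _ g (.inl none) ≠ 0 ∧ Phi κ n μ = 1 := by
  have hV : VEq κ n μ (outS _ g) := eig_vertex _ hg
  have h1 : outS _ g (.inl none) ≠ 0 := by
    intro h2
    have h3 := veq_zero hn hμ hd hV h2
    apply hg0
    funext d
    have h4 := eig_dart _ hg d
    rw [h3] at h4
    have hm : μ ^ 2 - 1 ≠ 0 := sub_ne_zero.2 (pow_ne_one_of_norm hμ 2 (by norm_num))
    simpa [hm] using h4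
  refine ⟨h1, ?_⟩
  have h5 := veq_hub hn hμ hd hV
  rcases mul_eq_zero.1 h5 with h6 | h6
  · exact sub_eq_zero.1 h6
  · exact absurd h6 h1

lemma eig_prop (hn : ∀ p, 2 ≤ n p) {μ : ℂ} (hμ : 1 < ‖μ‖) (hd : ∀ i, dn κ n μ i ≠ 0)
    {g g₀ : (petalGraph κ n).Dart → ℂ} (hg : (nbMatrix (petalGraph κ n)).mulVec g = μ • g)
    (hg₀ : (nbMatrix (petalGraph κ n)).mulVec g₀ = μ • g₀) (hne : g₀ ≠ 0) :
    ∃ t : ℂ, g = t • g₀ := by
  have h1 := (eig_unique hn hμ hd hg₀ hne).1
  refine ⟨outS _ g (.inl none) / outS _ g₀ (.inl none), ?_⟩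
  set t := outS _ g (.inl none) / outS _ g₀ (.inl none) with ht
  by_contra hcon
  have h2 : g - t • g₀ ≠ 0 := sub_ne_zero.2 hcon
  have h3 : (nbMatrix (petalGraph κ n)).mulVec (g - t • g₀) = μ • (g - t • g₀) := by
    rw [Matrix.mulVec_sub, Matrix.mulVec_smul, hg, hg₀, smul_sub, smul_comm]
  have h4 := (eig_unique hn hμ hd h3 h2).1
  apply h4
  have h5 : outS (petalGraph κ n) (g - t • g₀) (.inl none)
      = outS _ g (.inl none) - t * outS _ g₀ (.inl none) := by
    unfold outS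
    rw [Finset.mul_sum, ← Finset.sum_sub_distrib]
    refine Finset.sum_congr rfl fun e _ => ?_
    split_ifs <;> simp
  rw [h5, ht]
  field_simp
  ring

end Eq

section Exist

variable {I P : Type} (κ : P → Option I) (n : P → ℕ)
variable [Fintype I] [DecidableEq I] [Fintype P] [DecidableEq P]

/-- real petal sums at `2` -/
noncomputable def qr (a : Option I) : ℝ :=
  ∑ p : P, if κ p = a then 2 / ((2 : ℝ) ^ (n p + 1) + 1) else 0

/-- the Perron solution on centres -/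
noncomputable def Tc : Option I → ℝ
  | none => 1
  | some i => 2 / (4 - 3 * qr κ n (some i))

/-- the Perron solution -/
noncomputable def Tf : Vx I P n → ℝ
  | .inl a => Tc κ n a
  | .inr x => Tc κ n (κ x.1) * ((2 : ℝ) ^ (x.2.val + 1) + (2 : ℝ) ^ (n x.1 - x.2.val))
      / ((2 : ℝ) ^ (n x.1 + 1) + 1)

variable {κ n}

omit [Fintype I] [DecidableEq P] in
lemma sq_Tf (p : P) (i : ℕ) (hi : i ≤ n p + 1) :
    sq κ n (Tf κ n) p i = Tc κ n (κ p) * ((2 : ℝ) ^ i + (2 : ℝ) ^ (n p + 1 - i))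
      / ((2 : ℝ) ^ (n p + 1) + 1) := by
  have hpos : (0 : ℝ) < (2 : ℝ) ^ (n p + 1) + 1 := by positivity
  unfold sq
  by_cases h : 0 < i ∧ i ≤ n p
  · rw [dif_pos h]
    obtain ⟨k, rfl⟩ : ∃ k, i = k + 1 := ⟨i - 1, by omega⟩
    simp only [Tf, Nat.add_sub_cancel]
    congr 4
    omega
  · rw [dif_neg h]
    have h2 : i = 0 ∨ i = n p + 1 := by omega
    simp only [Tf]
    rcases h2 with rfl | rfl
    · simp only [pow_zero, Nat.sub_zero]
      field_simp
      ring
    · simp only [Nat.sub_self, pow_zero]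
      field_simp

omit [Fintype I] [DecidableEq P] in
lemma Tc_pos (hq : ∀ i, qr κ n (some i) < 1) (a : Option I) : 0 < Tc κ n a := by
  rcases a with _ | i
  · simp [Tc]
  · simp only [Tc]
    have := hq i
    apply div_pos (by norm_num)
    linarith

lemma Tf_center (hn : ∀ p, 2 ≤ n p) (hq : ∀ i, qr κ n (some i) < 1)
    (hΦ : qr κ n none + ∑ i : I, qr κ n (some i) / (4 - 3 * qr κ n (some i)) = 1)
    (a : Option I) :
    (∑ w, if (petalGraph κ n).Adj (.inl a) w then (2 * Tf κ n w - Tf κ n (.inl a)) else 0)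
      = 3 * Tf κ n (.inl a) := by
  rw [sum_center κ n hn (fun w => 2 * Tf κ n w - Tf κ n (.inl a))]
  have h1 : (∑ p : P, if κ p = a then
          ((2 * Tf κ n (.inr ⟨p, ⟨0, by have := hn p; omega⟩⟩) - Tf κ n (.inl a))
            + (2 * Tf κ n (.inr ⟨p, ⟨n p - 1, by have := hn p; omega⟩⟩) - Tf κ n (.inl a))) else 0)
      = 3 * Tc κ n a * qr κ n a := by
    unfold qr
    rw [Finset.mul_sum]
    refine Finset.sum_congr rfl fun p _ => ?_
    by_cases hp : κ p = a
    · rw [if_pos hp, if_pos hp]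
      simp only [Tf, hp]
      have hnp := hn p
      have h3 : n p - (n p - 1) = 1 := by omega
      have h4 : n p - 1 + 1 = n p := by omega
      rw [h3, h4]
      have hpos : (0 : ℝ) < (2 : ℝ) ^ (n p + 1) + 1 := by positivity
      have h5 : (2 : ℝ) ^ (n p + 1) = 2 * 2 ^ (n p) := by rw [pow_succ]; ring
      rw [h5] at hpos ⊢
      simp only [zero_add, pow_one, Nat.sub_zero]
      field_simp
      ring
    · simp [hp]
  rw [h1]
  rcases a with _ | i
  · have h5 : (∑ b : Option I, if ((none : Option I) = none ∧ b ≠ none) ∨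
        ((none : Option I) ≠ none ∧ b = none) then
        (2 * Tf κ n (.inl b) - Tf κ n (.inl none)) else 0)
        = ∑ i : I, (2 * Tc κ n (some i) - Tc κ n none) := by
      rw [Fintype.sum_option]
      simp [Tf]
    rw [h5]
    have h2 : ∀ i : I, 2 * Tc κ n (some i) - Tc κ n none
        = 3 * (qr κ n (some i) / (4 - 3 * qr κ n (some i))) := by
      intro i
      have h3 : 4 - 3 * qr κ n (some i) ≠ 0 := by
        have := hq i
        intro h; linarith
      simp only [Tc]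
      field_simp
      ring
    rw [Finset.sum_congr rfl fun i _ => h2 i, ← Finset.mul_sum]
    simp only [Tf, Tc]
    linear_combination 3 * hΦ
  · rw [Finset.sum_eq_single none]
    · simp only [ne_eq, Option.some_ne_none, not_true_eq_false, and_self, not_false_eq_true,
        or_true, if_true, Tf]
      have h3 : 4 - 3 * qr κ n (some i) ≠ 0 := by
        have := hq i
        intro h; linarith
      simp only [Tc]
      field_simp
      ring
    · intro b _ hb
      rw [if_neg]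
      simp [hb]
    · simp

lemma Tf_inner (hn : ∀ p, 2 ≤ n p) (p : P) (j : Fin (n p)) :
    (∑ w, if (petalGraph κ n).Adj (.inr ⟨p, j⟩) w then
      (2 * Tf κ n w - Tf κ n (.inr ⟨p, j⟩)) else 0) = 3 * Tf κ n (.inr ⟨p, j⟩) := by
  rw [sum_inner κ n hn (fun w => 2 * Tf κ n w - Tf κ n (.inr ⟨p, j⟩))]
  have h2 : ∀ i, sq κ n (fun w => 2 * Tf κ n w - Tf κ n (.inr ⟨p, j⟩)) p i
      = 2 * sq κ n (Tf κ n) p i - Tf κ n (.inr ⟨p, j⟩) := by
    intro i
    unfold sq
    split_ifs <;> rfl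
  have hj := j.2
  rw [h2, h2, sq_Tf p _ (by omega), sq_Tf p _ (by omega)]
  simp only [Tf]
  have hpos : (0 : ℝ) < (2 : ℝ) ^ (n p + 1) + 1 := by positivity
  obtain ⟨k, hk⟩ : ∃ k, n p = j.val + k + 1 := ⟨n p - j.val - 1, by omega⟩
  have h3 : n p + 1 - j.val = k + 2 := by omega
  have h4 : n p + 1 - (j.val + 2) = k := by omega
  have h5 : n p - j.val = k + 1 := by omega
  rw [h3, h4, h5]
  field_simp
  ring

lemma Tf_veq (hn : ∀ p, 2 ≤ n p) (hq : ∀ i, qr κ n (some i) < 1)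
    (hΦ : qr κ n none + ∑ i : I, qr κ n (some i) / (4 - 3 * qr κ n (some i)) = 1) :
    VEq κ n 2 (fun v => ((Tf κ n v : ℝ) : ℂ)) := by
  intro v
  have h : (∑ w, if (petalGraph κ n).Adj v w then (2 * Tf κ n w - Tf κ n v) else 0)
      = 3 * Tf κ n v := by
    rcases v with a | ⟨p, j⟩
    · exact Tf_center hn hq hΦ a
    · exact Tf_inner hn p j
  have h2 : (((∑ w, if (petalGraph κ n).Adj v w then (2 * Tf κ n w - Tf κ n v) else 0) : ℝ) : ℂ)
      = ((3 * Tf κ n v : ℝ) : ℂ) := by rw [h]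
  have h3 : (∑ w, if (petalGraph κ n).Adj v w then
        ((2 : ℂ) * (fun v => ((Tf κ n v : ℝ) : ℂ)) w - (fun v => ((Tf κ n v : ℝ) : ℂ)) v) else 0)
      = (((∑ w, if (petalGraph κ n).Adj v w then (2 * Tf κ n w - Tf κ n v) else 0) : ℝ) : ℂ) := by
    rw [Complex.ofReal_sum]
    refine Finset.sum_congr rfl fun w _ => ?_
    split_ifs
    · push_cast; rfl
    · simp
  rw [h3, h2]
  push_cast
  norm_num

omit [Fintype I] [DecidableEq P] in
lemma Tf_pos_dart (hn : ∀ p, 2 ≤ n p) (hq : ∀ i, qr κ n (some i) < 1)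
    (hq0 : ∀ i, 0 < qr κ n (some i)) (v w : Vx I P n) (h : (petalGraph κ n).Adj v w) :
    0 < 2 * Tf κ n w - Tf κ n v := by
  have hT := Tc_pos hq
  rcases v with a | ⟨p, j⟩ <;> rcases w with b | ⟨q, k⟩
  · simp only [petalGraph, adjR] at h
    rcases h with ⟨rfl, hb⟩ | ⟨ha, rfl⟩
    · obtain ⟨i, rfl⟩ := Option.ne_none_iff_exists'.1 hb
      simp only [Tf, Tc]
      have h1 := hq i
      have h2 := hq0 i
      have h3 : (0 : ℝ) < 4 - 3 * qr κ n (some i) := by linarith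
      have h4 : 2 * (2 / (4 - 3 * qr κ n (some i))) - 1
          = 3 * qr κ n (some i) / (4 - 3 * qr κ n (some i)) := by
        field_simp; ring
      rw [h4]
      positivity
    · obtain ⟨i, rfl⟩ := Option.ne_none_iff_exists'.1 ha
      simp only [Tf, Tc]
      have h1 := hq i
      have h3 : (0 : ℝ) < 4 - 3 * qr κ n (some i) := by linarith
      have h4 : 2 * 1 - 2 / (4 - 3 * qr κ n (some i))
          = 6 * (1 - qr κ n (some i)) / (4 - 3 * qr κ n (some i)) := by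
        field_simp; ring
      rw [h4]
      apply div_pos _ h3
      linarith
  · simp only [petalGraph, adjR] at h
    obtain ⟨rfl, h⟩ := h
    simp only [Tf]
    have hpos : (0 : ℝ) < (2 : ℝ) ^ (n q + 1) + 1 := by positivity
    have h2 := hT (κ q)
    have hnq := hn q
    have hk := k.2
    have h5 : (2 : ℝ) ^ (n q + 1) = 2 * 2 ^ (n q) := by rw [pow_succ]; ring
    have h6 : 2 * (Tc κ n (κ q) * ((2 : ℝ) ^ (k.val + 1) + 2 ^ (n q - k.val))
        / (2 ^ (n q + 1) + 1)) - Tc κ n (κ q) = Tc κ n (κ q) * 3 / (2 ^ (n q + 1) + 1) := by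
      rcases h with h | h
      · rw [h]
        rw [h5] at hpos ⊢
        simp only [zero_add, pow_one, Nat.sub_zero]
        field_simp
        ring
      · have h7 : n q - k.val = 1 := by omega
        rw [h, h7]
        rw [h5] at hpos ⊢
        field_simp
        ring
    rw [h6]
    positivity
  · simp only [petalGraph, adjR] at h
    obtain ⟨rfl, h⟩ := h
    simp only [Tf]
    have hpos : (0 : ℝ) < (2 : ℝ) ^ (n p + 1) + 1 := by positivity
    have h2 := hT (κ p)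
    have hj := j.2
    have h6 : 2 * Tc κ n (κ p) - (Tc κ n (κ p) * ((2 : ℝ) ^ (j.val + 1) + 2 ^ (n p - j.val))
        / (2 ^ (n p + 1) + 1)) = Tc κ n (κ p) * (2 * (2 ^ (n p + 1) + 1)
          - ((2 : ℝ) ^ (j.val + 1) + 2 ^ (n p - j.val))) / (2 ^ (n p + 1) + 1) := by
      field_simp
    rw [h6]
    have h7 : (2 : ℝ) ^ (j.val + 1) ≤ 2 ^ (n p + 1) := pow_le_pow_right₀ (by norm_num) (by omega)
    have h8 : (2 : ℝ) ^ (n p - j.val) ≤ 2 ^ (n p + 1) := pow_le_pow_right₀ (by norm_num) (by omega)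
    apply div_pos _ hpos
    apply mul_pos h2
    linarith
  · simp only [petalGraph, adjR] at h
    obtain ⟨rfl, h⟩ := h
    simp only [Tf]
    have hpos : (0 : ℝ) < (2 : ℝ) ^ (n p + 1) + 1 := by positivity
    have h2 := hT (κ p)
    have hj := j.2
    have hk := k.2
    have h6 : 2 * (Tc κ n (κ p) * ((2 : ℝ) ^ (k.val + 1) + 2 ^ (n p - k.val))
        / (2 ^ (n p + 1) + 1)) - (Tc κ n (κ p) * ((2 : ℝ) ^ (j.val + 1) + 2 ^ (n p - j.val))
        / (2 ^ (n p + 1) + 1))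
        = Tc κ n (κ p) * (2 * ((2 : ℝ) ^ (k.val + 1) + 2 ^ (n p - k.val))
          - ((2 : ℝ) ^ (j.val + 1) + 2 ^ (n p - j.val))) / (2 ^ (n p + 1) + 1) := by
      field_simp
    rw [h6]
    apply div_pos _ hpos
    apply mul_pos h2
    rcases h with h | h
    · obtain ⟨m, hm⟩ : ∃ m, n p - j.val = m + 1 := ⟨n p - j.val - 1, by omega⟩
      have h9 : n p - k.val = m := by omega
      rw [hm, h9, ← h]
      have h10 : (0 : ℝ) < 2 ^ (j.val + 1) := by positivity
      have e1 := pow_succ (2 : ℝ) (j.val + 1)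
      have e2 := pow_succ (2 : ℝ) m
      linarith
    · obtain ⟨m, hm⟩ : ∃ m, n p - k.val = m + 1 := ⟨n p - k.val - 1, by omega⟩
      have h9 : n p - j.val = m := by omega
      rw [hm, h9, ← h]
      have h10 : (0 : ℝ) < 2 ^ m := by positivity
      have e1 := pow_succ (2 : ℝ) (k.val + 1)
      have e2 := pow_succ (2 : ℝ) m
      linarith

/-- Main gap statement for a petal graph. -/
lemma petal_main (hn : ∀ p, 2 ≤ n p) (hq : ∀ i, qr κ n (some i) < 1)
    (hq0 : ∀ i, 0 < qr κ n (some i))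
    (hΦ : qr κ n none + ∑ i : I, qr κ n (some i) / (4 - 3 * qr κ n (some i)) = 1)
    {R : ℝ} (hR : 1 < R) (hR2 : R ≤ 2)
    (hd : ∀ μ : ℂ, R ≤ ‖μ‖ → ∀ i, dn κ n μ i ≠ 0)
    (hΦ' : ∀ μ : ℂ, R ≤ ‖μ‖ → Phi κ n μ = 1 → μ = 2)
    (hP : Nonempty P) :
    (nbModuli (petalGraph κ n))[0]? = some 2 ∧
      ∃ x, (nbModuli (petalGraph κ n))[1]? = some x ∧ x < R := by
  set g₀ : (petalGraph κ n).Dart → ℂ := fun d => 2 * ((Tf κ n d.snd : ℝ) : ℂ)
    - ((Tf κ n d.fst : ℝ) : ℂ) with hg₀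
  have h1 : (nbMatrix (petalGraph κ n)).mulVec g₀ = (2 : ℂ) • g₀ :=
    eig_of_vertex (petalGraph κ n) (S := fun v => ((Tf κ n v : ℝ) : ℂ)) (Tf_veq hn hq hΦ)
  have hposd : ∀ d : (petalGraph κ n).Dart, 0 < 2 * Tf κ n d.snd - Tf κ n d.fst :=
    fun d => Tf_pos_dart hn hq hq0 _ _ d.adj
  have hsum : ∑ d : (petalGraph κ n).Dart, g₀ d.symm * g₀ d
      = ((∑ d : (petalGraph κ n).Dart, (2 * Tf κ n d.symm.snd - Tf κ n d.symm.fst)
        * (2 * Tf κ n d.snd - Tf κ n d.fst) : ℝ) : ℂ) := by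
    push_cast
    rfl
  have hdart : Nonempty (petalGraph κ n).Dart := by
    obtain ⟨p⟩ := hP
    have hnp := hn p
    exact ⟨⟨(.inl (κ p), .inr ⟨p, ⟨0, by omega⟩⟩), by simp [petalGraph, adjR]⟩⟩
  have h0 : ∑ d : (petalGraph κ n).Dart, g₀ d.symm * g₀ d ≠ 0 := by
    rw [hsum]
    have : (0 : ℝ) < ∑ d : (petalGraph κ n).Dart, (2 * Tf κ n d.symm.snd - Tf κ n d.symm.fst)
        * (2 * Tf κ n d.snd - Tf κ n d.fst) := by
      apply Finset.sum_pos
      · intro d _
        exact mul_pos (hposd d.symm) (hposd d)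
      · exact Finset.univ_nonempty
    exact_mod_cast this.ne'
  have hg0ne : g₀ ≠ 0 := by
    intro h
    apply h0
    simp [h]
  have h2 : ((2 : ℝ) : ℂ) = (2 : ℂ) := by norm_num
  refine moduli_of_gap _ (g₀ := g₀) (by linarith) hR2 (by rw [h2]; exact h1) h0 ?_
  intro μ g hμ hg hg'
  have hμ1 : 1 < ‖μ‖ := hR.trans_le hμ
  have h3 := eig_unique hn hμ1 (hd μ hμ) hg' hg
  have h4 := hΦ' μ hμ h3.2
  refine ⟨by rw [h2]; exact h4, ?_⟩
  subst h4
  exact eig_prop hn hμ1 (hd 2 hμ) hg' h1 hg0ne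

end Exist

/-! Polynomials as lists of integer coefficients. -/

/-- evaluation -/
noncomputable def evL : List ℤ → ℂ → ℂ
  | [], _ => 0
  | a :: l, z => (a : ℂ) + z * evL l z

/-- addition -/
def addL : List ℤ → List ℤ → List ℤ
  | [], m => m
  | a :: l, [] => a :: l
  | a :: l, b :: m => (a + b) :: addL l m

/-- scaling -/
def scL (c : ℤ) : List ℤ → List ℤ
  | [] => []
  | a :: l => (c * a) :: scL c l

/-- multiplication -/
def mulL : List ℤ → List ℤ → List ℤ
  | [], _ => []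
  | a :: l, m => addL (scL a m) (0 :: mulL l m)

/-- shift by a power of `z` -/
def shL : ℕ → List ℤ → List ℤ
  | 0, l => l
  | k + 1, l => 0 :: shL k l

/-- all coefficients vanish -/
def zeroL : List ℤ → Bool
  | [] => true
  | a :: l => (a == 0) && zeroL l

/-- scaled norm on the disc of radius `71/100` -/
def nrmL : List ℤ → ℕ
  | [] => 0
  | a :: l => a.natAbs * 100 ^ (l.length + 1) + 71 * nrmL l

lemma evL_add (l m : List ℤ) (z : ℂ) : evL (addL l m) z = evL l z + evL m z := by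
  induction l generalizing m with
  | nil => simp [addL, evL]
  | cons a l ih =>
    cases m with
    | nil => simp [addL, evL]
    | cons b m =>
      simp only [addL, evL, ih]
      push_cast
      ring

lemma evL_sc (c : ℤ) (l : List ℤ) (z : ℂ) : evL (scL c l) z = c * evL l z := by
  induction l with
  | nil => simp [scL, evL]
  | cons a l ih =>
    simp only [scL, evL, ih]
    push_cast
    ring

lemma evL_mul (l m : List ℤ) (z : ℂ) : evL (mulL l m) z = evL l z * evL m z := by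
  induction l with
  | nil => simp [mulL, evL]
  | cons a l ih =>
    simp only [mulL, evL, evL_add, evL_sc, ih]
    push_cast
    ring

lemma evL_sh (k : ℕ) (l : List ℤ) (z : ℂ) : evL (shL k l) z = z ^ k * evL l z := by
  induction k with
  | zero => simp [shL]
  | succ k ih =>
    simp only [shL, evL, ih, pow_succ]
    push_cast
    ring

lemma evL_zero (l : List ℤ) (h : zeroL l = true) (z : ℂ) : evL l z = 0 := by
  induction l with
  | nil => simp [evL]
  | cons a l ih =>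
    simp only [zeroL, Bool.and_eq_true, beq_iff_eq] at h
    simp [evL, h.1, ih h.2]

lemma nrm_evL (l : List ℤ) (z : ℂ) (hz : ‖z‖ ≤ 71 / 100) :
    ‖evL l z‖ * 100 ^ l.length ≤ (nrmL l : ℝ) := by
  induction l with
  | nil => simp [evL, nrmL]
  | cons a l ih =>
    simp only [evL, nrmL, List.length_cons]
    push_cast
    have h1 : ‖(a : ℂ) + z * evL l z‖ ≤ |(a : ℝ)| + (71 / 100) * ‖evL l z‖ := by
      refine (norm_add_le _ _).trans ?_
      rw [norm_mul, Complex.norm_intCast]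
      have := mul_le_mul_of_nonneg_right hz (norm_nonneg (evL l z))
      linarith
    have h2 : (0 : ℝ) < 100 ^ (l.length) := by positivity
    have h3 : ((a.natAbs : ℕ) : ℝ) = |(a : ℝ)| := by
      rw [Nat.cast_natAbs, Int.cast_abs]
    rw [h3]
    calc ‖(a : ℂ) + z * evL l z‖ * 100 ^ (l.length + 1)
        ≤ (|(a : ℝ)| + (71 / 100) * ‖evL l z‖) * 100 ^ (l.length + 1) := by
          apply mul_le_mul_of_nonneg_right h1 (by positivity)
      _ = |(a : ℝ)| * 100 ^ (l.length + 1) + 71 * (‖evL l z‖ * 100 ^ l.length) := by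
          rw [pow_succ]; ring
      _ ≤ |(a : ℝ)| * 100 ^ (l.length + 1) + 71 * nrmL l := by linarith

lemma nrm_le (l : List ℤ) (z : ℂ) (hz : ‖z‖ ≤ 71 / 100) (c d : ℕ) (hd : 0 < d)
    (h : nrmL l * d ≤ c * 100 ^ l.length) : ‖evL l z‖ ≤ (c : ℝ) / d := by
  have h1 := nrm_evL l z hz
  have h2 : (0 : ℝ) < 100 ^ (l.length) := by positivity
  have h3 : (0 : ℝ) < d := by exact_mod_cast hd
  have h4 : (nrmL l : ℝ) * d ≤ c * 100 ^ l.length := by exact_mod_cast h
  rw [le_div_iff₀ h3]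
  have h5 : ‖evL l z‖ * d * 100 ^ l.length ≤ c * 100 ^ l.length := by
    calc ‖evL l z‖ * d * 100 ^ l.length = (‖evL l z‖ * 100 ^ l.length) * d := by ring
      _ ≤ nrmL l * d := mul_le_mul_of_nonneg_right h1 h3.le
      _ ≤ _ := h4
  exact le_of_mul_le_mul_right h5 h2

/-- numerator and denominator of a sum of fractions `m * a / d` -/
def fsL : List (ℤ × List ℤ × List ℤ) → List ℤ × List ℤ
  | [] => ([], [1])
  | (m, a, d) :: t => (addL (mulL (fsL t).1 d) (scL m (mulL a (fsL t).2)), mulL (fsL t).2 d)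

/-- value of a sum of fractions -/
noncomputable def fsV (z : ℂ) : List (ℤ × List ℤ × List ℤ) → ℂ
  | [] => 0
  | (m, a, d) :: t => fsV z t + m * (evL a z / evL d z)

lemma fsL_spec (z : ℂ) (L : List (ℤ × List ℤ × List ℤ)) (h : ∀ g ∈ L, evL g.2.2 z ≠ 0) :
    evL (fsL L).2 z ≠ 0 ∧ evL (fsL L).1 z = fsV z L * evL (fsL L).2 z := by
  induction L with
  | nil => simp [fsL, evL, fsV]
  | cons g t ih =>
    obtain ⟨m, a, d⟩ := g
    have h1 := ih (fun g hg => h g (List.mem_cons_of_mem _ hg))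
    have h2 : evL d z ≠ 0 := h (m, a, d) (by simp)
    refine ⟨?_, ?_⟩
    · simp only [fsL, evL_mul]
      exact mul_ne_zero h1.1 h2
    · simp only [fsL, evL_mul, evL_add, evL_sc, fsV, h1.2]
      field_simp

/-- a petal of length `l` at the hub, `m` copies -/
def gP (m : ℤ) (l : ℕ) : ℤ × List ℤ × List ℤ := (m, shL l [2], addL [1] (shL l [1]))

/-- `m` subhubs with `r` petals of length `l` -/
def gS (m r : ℤ) (l : ℕ) : ℤ × List ℤ × List ℤ :=
  (m, shL (l + 2) [2 * r], addL [1] (shL l [1 - 2 * r, 0, 2 * r]))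

/-- the basic collection -/
def base : List (ℤ × List ℤ × List ℤ) :=
  [gP 2 3, gP 1 4, gP 3 5, gP 2 8, gP 2 10, gP 11 12, gS 4 1 4, gS 4 1 5, gS 17 1 9, gS 17 1 11,
    gS 8 1 15, gS 8 1 19, gS 44 1 23, gS 2 2 7, gS 4 2 11]

/-- quotient polynomial -/
def n1 : List ℤ :=
    [1, 2, 4, 5, 8, 10, 14, 17, 26, 33, 53, 58, 76, 76, 100, 118, 144, 170, 221, 280, 363, 397, 410,
    467, 604, 835, 721, 783, 1242, 1259, 863, 1315, 2215, 2651, 2295, 2138, 1853, 3519, 4876, 2097,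
    3176, 8039, 5181, 748, 5249, 12991, 10672, 1809, 4425, 15051, 16492, 2431, 2585, 24930, 25643,
    2474, -3144, 23662, 52587, 20126, -30525, 11944, 93415, 36484, -72555, 20418, 143884, 36770,
    -90389, 3586, 165503, 96046, -103258, -51198, 171008, 188012, -78187, -190778, 157705, 385436,
    -30900, -402668, 94515, 631250, 29819, -615014, 58477, 794502, 120093, -740652, -81816, 888764,
    334881, -722778, -394427, 789207, 742256, -569221, -862655, 553547, 1362382, -257153, -1638065,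
    254660, 2080091, 75695, -2109970, -191463, 2279278, 534481, -2077831, -628640, 2116419, 1058277,
    -1942449, -1172341, 1869207, 1444055, -1233488, -1632035, 581597, 2212257, 282034, -2606949,
    -804892, 3122599, 1303397, -3165960, -1449205, 2913570, 1829944, -2356534, -2185070, 2115210,
    2456170, -1748012, -2238585, 1259969, 1981850, -455167, -1564530, -431458, 1272218, 1462263,
    -1186336, -2145466, 1295637, 2433382, -1126150, -2445716, 840812, 2533544, -536728, -2592656,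
    297040, 2548448, -162336, -2191296, 206400, 1491072, -185472, -667904, 76288, 152576]

/-- approximate inverse -/
def ai : List ℤ :=
    [1, -2, 0, 3, -4, 2, 3, -7, 2, 10, -19, 24, 1, -59, 83, -48, -21, 109, -141, -23, 270, -321,
    135, 491, -1483, 1685, -83, -2470, 3463, -718, -4313, 4024]

lemma cert1 : zeroL (addL (addL (fsL base).2 (scL (-1) (fsL base).1))
    (scL (-1) (mulL [1, -2] n1))) = true := by
  decide +kernel

lemma cert2 : nrmL (addL (mulL ai n1) [-1]) * 100 ≤ 42 * 100 ^ (addL (mulL ai n1) [-1]).length := by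
  decide +kernel

lemma cert3 : nrmL ai * 1 ≤ 13 * 100 ^ ai.length := by
  decide +kernel

lemma cert4 : nrmL (fsL base).2 * 1 ≤ 3 * 100 ^ ((fsL base).2).length := by
  decide +kernel

/-- contribution of a petal of length `l` at the hub -/
noncomputable def Pf (l : ℕ) (z : ℂ) : ℂ := 2 * z ^ l / (1 + z ^ l)

/-- contribution of a subhub with `r` petals of length `l` -/
noncomputable def Sf (r : ℂ) (l : ℕ) (z : ℂ) : ℂ :=
  2 * r * z ^ (l + 2) / (1 + z ^ l * (1 - 2 * r + 2 * r * z ^ 2))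

lemma norm_pow_le {z : ℂ} (hz : ‖z‖ ≤ 71 / 100) (l : ℕ) : ‖z ^ l‖ ≤ (71 / 100 : ℝ) ^ l := by
  rw [norm_pow]
  exact pow_le_pow_left₀ (norm_nonneg z) hz l

lemma one_add_ne {w : ℂ} (h : ‖w‖ < 1) : 1 + w ≠ 0 := by
  intro h1
  have h2 : w = -1 := by linear_combination h1
  rw [h2, norm_neg, norm_one] at h
  exact lt_irrefl _ h

lemma denP_ne {z : ℂ} (hz : ‖z‖ ≤ 71 / 100) (l : ℕ) (hl : 1 ≤ l) : 1 + z ^ l ≠ 0 := by
  apply one_add_ne
  refine (norm_pow_le hz l).trans_lt ?_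
  exact pow_lt_one₀ (by norm_num) (by norm_num) (by omega)

lemma denS1_ne {z : ℂ} (hz : ‖z‖ ≤ 71 / 100) (l : ℕ) (hl : 3 ≤ l) :
    1 + z ^ l * (1 - 2 * (1 : ℂ) + 2 * (1 : ℂ) * z ^ 2) ≠ 0 := by
  apply one_add_ne
  rw [norm_mul]
  have h1 : ‖z ^ l‖ ≤ (71 / 100 : ℝ) ^ 3 :=
    (norm_pow_le hz l).trans (pow_le_pow_of_le_one (by norm_num) (by norm_num) hl)
  have h2 : ‖(1 - 2 * (1 : ℂ) + 2 * (1 : ℂ) * z ^ 2)‖ ≤ 1 + 2 * (71 / 100 : ℝ) ^ 2 := by
    have h3 : (1 - 2 * (1 : ℂ) + 2 * (1 : ℂ) * z ^ 2) = -1 + 2 * z ^ 2 := by ring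
    rw [h3]
    refine (norm_add_le _ _).trans ?_
    rw [norm_neg, norm_one, norm_mul]
    have h4 : ‖(2 : ℂ)‖ = 2 := by simp
    rw [h4]
    have := norm_pow_le hz 2
    linarith
  calc ‖z ^ l‖ * ‖(1 - 2 * (1 : ℂ) + 2 * (1 : ℂ) * z ^ 2)‖
      ≤ (71 / 100 : ℝ) ^ 3 * (1 + 2 * (71 / 100 : ℝ) ^ 2) :=
        mul_le_mul h1 h2 (norm_nonneg _) (by positivity)
    _ < 1 := by norm_num

lemma denS2_ne {z : ℂ} (hz : ‖z‖ ≤ 71 / 100) (l : ℕ) (hl : 6 ≤ l) :
    1 + z ^ l * (1 - 2 * (2 : ℂ) + 2 * (2 : ℂ) * z ^ 2) ≠ 0 := by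
  apply one_add_ne
  rw [norm_mul]
  have h1 : ‖z ^ l‖ ≤ (71 / 100 : ℝ) ^ 6 :=
    (norm_pow_le hz l).trans (pow_le_pow_of_le_one (by norm_num) (by norm_num) hl)
  have h2 : ‖(1 - 2 * (2 : ℂ) + 2 * (2 : ℂ) * z ^ 2)‖ ≤ 3 + 4 * (71 / 100 : ℝ) ^ 2 := by
    have h3 : (1 - 2 * (2 : ℂ) + 2 * (2 : ℂ) * z ^ 2) = -3 + 4 * z ^ 2 := by ring
    rw [h3]
    refine (norm_add_le _ _).trans ?_
    rw [norm_neg, norm_mul]
    have h4 : ‖(3 : ℂ)‖ = 3 := by simp
    have h5 : ‖(4 : ℂ)‖ = 4 := by simp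
    rw [h4, h5]
    have := norm_pow_le hz 2
    linarith
  calc ‖z ^ l‖ * ‖(1 - 2 * (2 : ℂ) + 2 * (2 : ℂ) * z ^ 2)‖
      ≤ (71 / 100 : ℝ) ^ 6 * (3 + 4 * (71 / 100 : ℝ) ^ 2) :=
        mul_le_mul h1 h2 (norm_nonneg _) (by positivity)
    _ < 1 := by norm_num

/-- quotient function of the replacement step -/
noncomputable def Kf (j : ℕ) (z : ℂ) : ℂ :=
  2 * z * z ^ j * (1 - z ^ j - 2 * z * z ^ j - z * (z ^ j) ^ 2 + z * (z ^ j) ^ 3
    - 4 * z ^ 2 * (z ^ j) ^ 2 + 2 * z ^ 2 * (z ^ j) ^ 3 - 2 * z ^ 3 * (z ^ j) ^ 2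
    - 2 * z ^ 3 * (z ^ j) ^ 3 - 4 * z ^ 4 * (z ^ j) ^ 3)
    / ((1 + z * z ^ j) * (1 - z * (z ^ j) ^ 2 + 2 * z ^ 3 * (z ^ j) ^ 2)
      * (1 - z ^ j + 2 * z ^ 2 * z ^ j))

lemma step_id {z : ℂ} (hz : ‖z‖ ≤ 71 / 100) (j : ℕ) (hj : 3 ≤ j) :
    Pf (j + 1) z + 4 * Sf 1 (2 * j + 1) z - 2 * Sf 1 j z = (1 - 2 * z) * Kf j z := by
  have h1 := denP_ne hz (j + 1) (by omega)
  have h2 := denS1_ne hz j hj
  have h3 := denS1_ne hz (2 * j + 1) (by omega)
  have e1 : z ^ (j + 1) = z * z ^ j := by ring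
  have e2 : z ^ (2 * j + 1) = z * (z ^ j) ^ 2 := by ring
  have e3 : z ^ (j + 2) = z ^ 2 * z ^ j := by ring
  have e4 : z ^ (2 * j + 1 + 2) = z ^ 3 * (z ^ j) ^ 2 := by ring
  unfold Pf Sf Kf
  rw [e1] at h1
  rw [e2] at h3
  rw [e1, e2, e3, e4]
  generalize z ^ j = u at *
  have d1 : 1 + z * u ≠ 0 := h1
  have d2 : 1 - z * u ^ 2 + 2 * z ^ 3 * u ^ 2 ≠ 0 := by
    intro h; apply h3; linear_combination h
  have d3 : 1 - u + 2 * z ^ 2 * u ≠ 0 := by
    intro h; apply h2; linear_combination h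
  have f2 : 1 + z * u ^ 2 * (1 - 2 * 1 + 2 * 1 * z ^ 2) = 1 - z * u ^ 2 + 2 * z ^ 3 * u ^ 2 := by
    ring
  have f3 : 1 + u * (1 - 2 * 1 + 2 * 1 * z ^ 2) = 1 - u + 2 * z ^ 2 * u := by ring
  rw [f2, f3]
  field_simp
  ring

lemma Kf_bound {z : ℂ} (hz : ‖z‖ ≤ 71 / 100) (j : ℕ) (hj : 23 ≤ j) :
    ‖Kf j z‖ ≤ 4 * (71 / 100 : ℝ) ^ j := by
  have hu : ‖z ^ j‖ ≤ (71 / 100 : ℝ) ^ j := norm_pow_le hz j
  have hu2 : ‖z ^ j‖ ≤ 1 / 1000 := by
    refine (hu.trans (pow_le_pow_of_le_one (by norm_num) (by norm_num) hj)).trans ?_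
    norm_num
  have hz1 : ‖z‖ ≤ 1 := by linarith
  unfold Kf
  generalize z ^ j = u at *
  have hz0 := norm_nonneg z
  have hu0 := norm_nonneg u
  have pz : ∀ a : ℕ, ‖z ^ a‖ ≤ 1 := by
    intro a; rw [norm_pow]; exact pow_le_one₀ hz0 hz1
  have pu : ∀ b : ℕ, 1 ≤ b → ‖u ^ b‖ ≤ 1 / 1000 := by
    intro b hb
    rw [norm_pow]
    calc ‖u‖ ^ b ≤ ‖u‖ ^ 1 := pow_le_pow_of_le_one hu0 (by linarith) hb
      _ ≤ 1 / 1000 := by rw [pow_one]; exact hu2
  have mono : ∀ (c : ℂ) (a b : ℕ), 1 ≤ b → ‖c‖ ≤ 4 → ‖c * (z ^ a * u ^ b)‖ ≤ 4 / 1000 := by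
    intro c a b hb hc
    rw [norm_mul, norm_mul]
    have h1 := pz a
    have h2 := pu b hb
    calc ‖c‖ * (‖z ^ a‖ * ‖u ^ b‖) ≤ 4 * (1 * (1 / 1000)) := by
          apply mul_le_mul hc _ (by positivity) (by norm_num)
          exact mul_le_mul h1 h2 (norm_nonneg _) (by norm_num)
      _ = 4 / 1000 := by norm_num
  have hnum : ‖(1 - u - 2 * z * u - z * u ^ 2 + z * u ^ 3
    - 4 * z ^ 2 * u ^ 2 + 2 * z ^ 2 * u ^ 3 - 2 * z ^ 3 * u ^ 2
    - 2 * z ^ 3 * u ^ 3 - 4 * z ^ 4 * u ^ 3)‖ ≤ 1 + 36 / 1000 := by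
    have e : (1 - u - 2 * z * u - z * u ^ 2 + z * u ^ 3
      - 4 * z ^ 2 * u ^ 2 + 2 * z ^ 2 * u ^ 3 - 2 * z ^ 3 * u ^ 2
      - 2 * z ^ 3 * u ^ 3 - 4 * z ^ 4 * u ^ 3) = 1 + (-1) * (z ^ 0 * u ^ 1) + (-2) * (z ^ 1 * u ^ 1)
      + (-1) * (z ^ 1 * u ^ 2) + 1 * (z ^ 1 * u ^ 3) + (-4) * (z ^ 2 * u ^ 2)
      + 2 * (z ^ 2 * u ^ 3) + (-2) * (z ^ 3 * u ^ 2) + (-2) * (z ^ 3 * u ^ 3)
      + (-4) * (z ^ 4 * u ^ 3) := by ring
    rw [e]
    have m1 := mono (-1) 0 1 (by norm_num) (by simp)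
    have m2 := mono (-2) 1 1 (by norm_num) (by simp; norm_num)
    have m3 := mono (-1) 1 2 (by norm_num) (by simp)
    have m4 := mono 1 1 3 (by norm_num) (by simp)
    have m5 := mono (-4) 2 2 (by norm_num) (by simp)
    have m6 := mono 2 2 3 (by norm_num) (by simp; norm_num)
    have m7 := mono (-2) 3 2 (by norm_num) (by simp; norm_num)
    have m8 := mono (-2) 3 3 (by norm_num) (by simp; norm_num)
    have m9 := mono (-4) 4 3 (by norm_num) (by simp)
    refine (norm_add_le _ _).trans ?_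
    refine (add_le_add_left (norm_add_le _ _) _).trans ?_
    refine (add_le_add_left (add_le_add_left (norm_add_le _ _) _) _).trans ?_
    refine (add_le_add_left (add_le_add_left (add_le_add_left (norm_add_le _ _) _) _) _).trans ?_
    refine (add_le_add_left (add_le_add_left (add_le_add_left (add_le_add_left
      (norm_add_le _ _) _) _) _) _).trans ?_
    refine (add_le_add_left (add_le_add_left (add_le_add_left (add_le_add_left
      (add_le_add_left (norm_add_le _ _) _) _) _) _) _).trans ?_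
    refine (add_le_add_left (add_le_add_left (add_le_add_left (add_le_add_left
      (add_le_add_left (add_le_add_left (norm_add_le _ _) _) _) _) _) _) _).trans ?_
    refine (add_le_add_left (add_le_add_left (add_le_add_left (add_le_add_left
      (add_le_add_left (add_le_add_left (add_le_add_left (norm_add_le _ _) _) _) _) _) _) _)
        _).trans ?_
    refine (add_le_add_left (add_le_add_left (add_le_add_left (add_le_add_left
      (add_le_add_left (add_le_add_left (add_le_add_left (add_le_add_left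
        (norm_add_le _ _) _) _) _) _) _) _) _) _).trans ?_
    rw [norm_one]
    linarith
  have low : ∀ w : ℂ, ‖w‖ ≤ 12 / 1000 → 988 / 1000 ≤ ‖1 + w‖ := by
    intro w hw
    have h1 : ‖(1 : ℂ)‖ ≤ ‖1 + w‖ + ‖w‖ := by
      have := norm_sub_le (1 + w) w
      simpa using this
    rw [norm_one] at h1
    linarith
  have d1 : 988 / 1000 ≤ ‖1 + z * u‖ := by
    apply low
    have := mono 1 1 1 (by norm_num) (by simp)
    simp only [one_mul, pow_one] at this
    linarith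
  have d2 : 988 / 1000 ≤ ‖1 - z * u ^ 2 + 2 * z ^ 3 * u ^ 2‖ := by
    have e : 1 - z * u ^ 2 + 2 * z ^ 3 * u ^ 2 = 1 + ((-1) * (z ^ 1 * u ^ 2) + 2 * (z ^ 3 * u ^ 2)) := by
      ring
    rw [e]
    apply low
    refine (norm_add_le _ _).trans ?_
    have m1 := mono (-1) 1 2 (by norm_num) (by simp)
    have m2 := mono 2 3 2 (by norm_num) (by simp; norm_num)
    linarith
  have d3 : 988 / 1000 ≤ ‖1 - u + 2 * z ^ 2 * u‖ := by
    have e : 1 - u + 2 * z ^ 2 * u = 1 + ((-1) * (z ^ 0 * u ^ 1) + 2 * (z ^ 2 * u ^ 1)) := by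
      ring
    rw [e]
    apply low
    refine (norm_add_le _ _).trans ?_
    have m1 := mono (-1) 0 1 (by norm_num) (by simp)
    have m2 := mono 2 2 1 (by norm_num) (by simp; norm_num)
    linarith
  rw [norm_div, norm_mul, norm_mul, norm_mul, norm_mul, norm_mul]
  have h4 : ‖(2 : ℂ)‖ = 2 := by simp
  rw [h4]
  have hden : (96 / 100 : ℝ) ≤ ‖1 + z * u‖ * ‖1 - z * u ^ 2 + 2 * z ^ 3 * u ^ 2‖
      * ‖1 - u + 2 * z ^ 2 * u‖ := by
    have h5 : (988 / 1000 : ℝ) * (988 / 1000) ≤ ‖1 + z * u‖ * ‖1 - z * u ^ 2 + 2 * z ^ 3 * u ^ 2‖ :=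
      mul_le_mul d1 d2 (by norm_num) (by positivity)
    have h6 : (988 / 1000 : ℝ) * (988 / 1000) * (988 / 1000) ≤
        ‖1 + z * u‖ * ‖1 - z * u ^ 2 + 2 * z ^ 3 * u ^ 2‖ * ‖1 - u + 2 * z ^ 2 * u‖ :=
      mul_le_mul h5 d3 (by norm_num) (by positivity)
    refine le_trans (by norm_num) h6
  rw [div_le_iff₀ (by linarith)]
  have hb : (0 : ℝ) ≤ (71 / 100 : ℝ) ^ j := by positivity
  calc 2 * ‖z‖ * ‖u‖ * _ ≤ 2 * (71 / 100) * (71 / 100 : ℝ) ^ j * (1 + 36 / 1000) := by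
        apply mul_le_mul _ hnum (norm_nonneg _) (by positivity)
        apply mul_le_mul _ hu hu0 (by positivity)
        linarith
    _ ≤ 4 * (71 / 100 : ℝ) ^ j * (96 / 100) := by nlinarith
    _ ≤ _ := by
        apply mul_le_mul_of_nonneg_left hden (by positivity)

/-- the replaced part of the hub sum -/
noncomputable def Tk (k : ℕ) (z : ℂ) : ℂ :=
  (∑ i ∈ range k, (2 : ℂ) ^ i * Pf (24 * 2 ^ i) z) + 2 ^ (k + 1) * Sf 1 (24 * 2 ^ k - 1) z

lemma Tk_eq {z : ℂ} (hz : ‖z‖ ≤ 71 / 100) (k : ℕ) :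
    Tk k z = 2 * Sf 1 23 z
      + (1 - 2 * z) * ∑ i ∈ range k, (2 : ℂ) ^ i * Kf (24 * 2 ^ i - 1) z := by
  induction k with
  | zero => simp [Tk]
  | succ k ih =>
    have hk : 1 ≤ 2 ^ k := Nat.one_le_two_pow
    have h1 := step_id hz (24 * 2 ^ k - 1) (by omega)
    have h2 : 24 * 2 ^ k - 1 + 1 = 24 * 2 ^ k := by omega
    have h3 : 2 * (24 * 2 ^ k - 1) + 1 = 24 * 2 ^ (k + 1) - 1 := by
      rw [pow_succ]; omega
    rw [h2, h3] at h1
    rw [Finset.sum_range_succ, mul_add, ← add_assoc, ← ih]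
    unfold Tk
    rw [Finset.sum_range_succ]
    have h4 : (1 - 2 * z) * ((2 : ℂ) ^ k * Kf (24 * 2 ^ k - 1) z)
        = 2 ^ k * (Pf (24 * 2 ^ k) z + 4 * Sf 1 (24 * 2 ^ (k + 1) - 1) z
          - 2 * Sf 1 (24 * 2 ^ k - 1) z) := by
      rw [h1]; ring
    rw [h4]
    ring

lemma Ksum_bound {z : ℂ} (hz : ‖z‖ ≤ 71 / 100) (k : ℕ) :
    ‖∑ i ∈ range k, (2 : ℂ) ^ i * Kf (24 * 2 ^ i - 1) z‖ ≤ 1 / 100 := by
  have h1 : ∀ i ∈ range k, ‖(2 : ℂ) ^ i * Kf (24 * 2 ^ i - 1) z‖
      ≤ 4 * (71 / 100 : ℝ) ^ 23 * (1 / 2) ^ i := by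
    intro i _
    have hi : 1 ≤ 2 ^ i := Nat.one_le_two_pow
    have hi2 : i + 1 ≤ 2 ^ i := Nat.lt_two_pow_self
    rw [norm_mul, norm_pow]
    have h4 : ‖(2 : ℂ)‖ = 2 := by simp
    rw [h4]
    have h5 := Kf_bound hz (24 * 2 ^ i - 1) (by omega)
    have h6 : (71 / 100 : ℝ) ^ (24 * 2 ^ i - 1) ≤ (71 / 100 : ℝ) ^ (23 + 24 * i) :=
      pow_le_pow_of_le_one (by norm_num) (by norm_num) (by omega)
    have h7 : (71 / 100 : ℝ) ^ (23 + 24 * i) = (71 / 100 : ℝ) ^ 23 * ((71 / 100 : ℝ) ^ 24) ^ i := by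
      rw [pow_add, pow_mul]
    have h8 : ((71 / 100 : ℝ) ^ 24) ^ i ≤ (1 / 4 : ℝ) ^ i :=
      pow_le_pow_left₀ (by positivity) (by norm_num) i
    have h9 : (0 : ℝ) ≤ (71 / 100 : ℝ) ^ 23 := by positivity
    have h10 : (71 / 100 : ℝ) ^ (24 * 2 ^ i - 1) ≤ (71 / 100 : ℝ) ^ 23 * (1 / 4) ^ i := by
      refine h6.trans ?_
      rw [h7]
      exact mul_le_mul_of_nonneg_left h8 h9
    have h11 : (2 : ℝ) ^ i * (1 / 4) ^ i = (1 / 2) ^ i := by
      rw [← mul_pow]; norm_num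
    calc (2 : ℝ) ^ i * ‖Kf (24 * 2 ^ i - 1) z‖
        ≤ 2 ^ i * (4 * ((71 / 100 : ℝ) ^ 23 * (1 / 4) ^ i)) := by
          apply mul_le_mul_of_nonneg_left _ (by positivity)
          linarith
      _ = 4 * (71 / 100 : ℝ) ^ 23 * (2 ^ i * (1 / 4) ^ i) := by ring
      _ = 4 * (71 / 100 : ℝ) ^ 23 * (1 / 2) ^ i := by rw [h11]
  refine (norm_sum_le_of_le _ h1).trans ?_
  rw [← Finset.mul_sum]
  have h2 : ∑ i ∈ range k, (1 / 2 : ℝ) ^ i ≤ 2 := sum_geometric_two_le k
  calc 4 * (71 / 100 : ℝ) ^ 23 * ∑ i ∈ range k, (1 / 2 : ℝ) ^ i ≤ 4 * (71 / 100 : ℝ) ^ 23 * 2 :=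
        mul_le_mul_of_nonneg_left h2 (by positivity)
    _ ≤ 1 / 100 := by norm_num

lemma evL_gP_num (m : ℤ) (l : ℕ) (z : ℂ) : evL (gP m l).2.1 z = 2 * z ^ l := by
  simp only [gP, evL_sh, evL]
  push_cast
  ring

lemma evL_gP_den (m : ℤ) (l : ℕ) (z : ℂ) : evL (gP m l).2.2 z = 1 + z ^ l := by
  simp only [gP, evL_sh, evL_add, evL]
  push_cast
  ring

lemma evL_gS_num (m r : ℤ) (l : ℕ) (z : ℂ) : evL (gS m r l).2.1 z = 2 * r * z ^ (l + 2) := by
  simp only [gS, evL_sh, evL]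
  push_cast
  ring

lemma evL_gS_den (m r : ℤ) (l : ℕ) (z : ℂ) :
    evL (gS m r l).2.2 z = 1 + z ^ l * (1 - 2 * r + 2 * r * z ^ 2) := by
  simp only [gS, evL_sh, evL_add, evL]
  push_cast
  ring

lemma base_den {z : ℂ} (hz : ‖z‖ ≤ 71 / 100) : ∀ g ∈ base, evL g.2.2 z ≠ 0 := by
  have hP : ∀ (m : ℤ) (l : ℕ), 1 ≤ l → evL (gP m l).2.2 z ≠ 0 := by
    intro m l hl
    rw [evL_gP_den]
    exact denP_ne hz l hl
  have h1 : ∀ (m : ℤ) (l : ℕ), 3 ≤ l → evL (gS m 1 l).2.2 z ≠ 0 := by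
    intro m l hl
    rw [evL_gS_den]
    simpa using denS1_ne hz l hl
  have h2 : ∀ (m : ℤ) (l : ℕ), 6 ≤ l → evL (gS m 2 l).2.2 z ≠ 0 := by
    intro m l hl
    rw [evL_gS_den]
    simpa using denS2_ne hz l hl
  intro g hg
  simp only [base, List.mem_cons, List.not_mem_nil, or_false] at hg
  rcases hg with rfl | rfl | rfl | rfl | rfl | rfl | rfl | rfl | rfl | rfl | rfl | rfl | rfl | rfl | rfl
  · exact hP _ _ (by norm_num)
  · exact hP _ _ (by norm_num)
  · exact hP _ _ (by norm_num)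
  · exact hP _ _ (by norm_num)
  · exact hP _ _ (by norm_num)
  · exact hP _ _ (by norm_num)
  · exact h1 _ _ (by norm_num)
  · exact h1 _ _ (by norm_num)
  · exact h1 _ _ (by norm_num)
  · exact h1 _ _ (by norm_num)
  · exact h1 _ _ (by norm_num)
  · exact h1 _ _ (by norm_num)
  · exact h1 _ _ (by norm_num)
  · exact h2 _ _ (by norm_num)
  · exact h2 _ _ (by norm_num)

lemma base_val (z : ℂ) : fsV z base =
    2 * Pf 3 z + 1 * Pf 4 z + 3 * Pf 5 z + 2 * Pf 8 z + 2 * Pf 10 z + 11 * Pf 12 z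
      + 4 * Sf 1 4 z + 4 * Sf 1 5 z + 17 * Sf 1 9 z + 17 * Sf 1 11 z + 8 * Sf 1 15 z
      + 8 * Sf 1 19 z + 44 * Sf 1 23 z + 2 * Sf 2 7 z + 4 * Sf 2 11 z := by
  have hP : ∀ (m : ℤ) (l : ℕ) (t : List (ℤ × List ℤ × List ℤ)),
      fsV z (gP m l :: t) = fsV z t + m * Pf l z := by
    intro m l t
    have e : fsV z (gP m l :: t) = fsV z t + ((gP m l).1 : ℤ)
      * (evL (gP m l).2.1 z / evL (gP m l).2.2 z) := rfl
    rw [e, evL_gP_num, evL_gP_den]
    rfl
  have hS : ∀ (m r : ℤ) (l : ℕ) (t : List (ℤ × List ℤ × List ℤ)),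
      fsV z (gS m r l :: t) = fsV z t + m * Sf r l z := by
    intro m r l t
    have e : fsV z (gS m r l :: t) = fsV z t + ((gS m r l).1 : ℤ)
      * (evL (gS m r l).2.1 z / evL (gS m r l).2.2 z) := rfl
    rw [e, evL_gS_num, evL_gS_den]
    rfl
  have h0 : fsV z [] = 0 := rfl
  unfold base
  simp only [hP, hS, h0]
  push_cast
  ring

/-- Nonvanishing: the only solution in the disc is `1/2`. -/
lemma nonvanish {z : ℂ} (hz : ‖z‖ ≤ 71 / 100) (k : ℕ)
    (h : fsV z base - 2 * Sf 1 23 z + Tk k z = 1) : z = 1 / 2 := by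
  by_contra hne
  rw [Tk_eq hz k] at h
  set s := ∑ i ∈ range k, (2 : ℂ) ^ i * Kf (24 * 2 ^ i - 1) z with hs
  have hsb : ‖s‖ ≤ 1 / 100 := Ksum_bound hz k
  have h1 := fsL_spec z base (base_den hz)
  have h2 := evL_zero _ cert1 z
  rw [evL_add, evL_add, evL_sc, evL_sc, evL_mul, h1.2] at h2
  have h3 : evL [1, -2] z = 1 - 2 * z := by
    simp only [evL]; push_cast; ring
  rw [h3] at h2
  push_cast at h2
  set D := evL (fsL base).2 z with hD
  have h4 : (1 - 2 * z) * (evL n1 z - D * s) = 0 := by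
    linear_combination -h2 - D * h
  have h5 : evL n1 z = D * s := by
    rcases mul_eq_zero.1 h4 with h6 | h6
    · exfalso
      apply hne
      linear_combination -(1 / 2 : ℂ) * h6
    · exact sub_eq_zero.1 h6
  have b2 : ‖evL (addL (mulL ai n1) [-1]) z‖ ≤ (42 : ℕ) / (100 : ℕ) :=
    nrm_le _ z hz 42 100 (by norm_num) cert2
  have b3 : ‖evL ai z‖ ≤ (13 : ℕ) / (1 : ℕ) := nrm_le _ z hz 13 1 (by norm_num) cert3
  have b4 : ‖D‖ ≤ (3 : ℕ) / (1 : ℕ) := nrm_le _ z hz 3 1 (by norm_num) cert4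
  rw [evL_add, evL_mul, h5] at b2
  have h7 : evL [-1] z = -1 := by simp [evL]
  rw [h7] at b2
  have h8 : ‖evL ai z * (D * s)‖ ≤ 13 * (3 * (1 / 100)) := by
    rw [norm_mul, norm_mul]
    push_cast at b3 b4
    apply mul_le_mul (by linarith) _ (by positivity) (by norm_num)
    apply mul_le_mul (by linarith) hsb (norm_nonneg _) (by norm_num)
  have h9 : (1 : ℝ) ≤ ‖evL ai z * (D * s) + -1‖ + ‖evL ai z * (D * s)‖ := by
    have h10 := norm_sub_le (evL ai z * (D * s)) (evL ai z * (D * s) + -1)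
    have h11 : evL ai z * (D * s) - (evL ai z * (D * s) + -1) = 1 := by ring
    rw [h11, norm_one] at h10
    linarith
  push_cast at b2
  linarith

section Generic

variable {I P : Type} {κ : P → Option I} {n : P → ℕ}
variable [Fintype I] [DecidableEq I] [Fintype P] [DecidableEq P]

lemma petal_degree (hn : ∀ p, 2 ≤ n p) (hs : ∀ a : Option I, ∃ p, κ p = a) (v : Vx I P n) :
    2 ≤ (petalGraph κ n).degree v := by
  have h := SimpleGraph.degree_eq_sum_if_adj (R := ℕ) (petalGraph κ n) v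
  rw [Nat.cast_id] at h
  rw [h]
  rcases v with a | ⟨p, j⟩
  · rw [sum_center κ n hn (fun _ => (1 : ℕ)) a]
    obtain ⟨p, hp⟩ := hs a
    refine le_trans ?_ (Nat.le_add_left _ _)
    refine le_trans ?_ (Finset.single_le_sum (f := fun p => if κ p = a then (1 + 1 : ℕ) else 0)
      (fun _ _ => Nat.zero_le _) (Finset.mem_univ p))
    simp [hp]
  · rw [sum_inner κ n hn (fun _ => (1 : ℕ)) p j]
    unfold sq
    split_ifs <;> norm_num

omit [Fintype I] [DecidableEq I] [Fintype P] [DecidableEq P] in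
lemma petal_connected (κ : P → Option I) (n : P → ℕ) : (petalGraph κ n).Connected := by
  rw [SimpleGraph.connected_iff_exists_forall_reachable]
  refine ⟨.inl none, ?_⟩
  have hc : ∀ a : Option I, (petalGraph κ n).Reachable (.inl none) (.inl a) := by
    rintro (_ | i)
    · exact SimpleGraph.Reachable.refl _
    · apply SimpleGraph.Adj.reachable
      simp [petalGraph, adjR]
  rintro (a | ⟨p, j⟩)
  · exact hc a
  · obtain ⟨j, hj⟩ := j
    induction j with
    | zero =>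
      refine (hc (κ p)).trans (SimpleGraph.Adj.reachable ?_)
      simp [petalGraph, adjR]
    | succ j ih =>
      refine (ih (by omega)).trans (SimpleGraph.Adj.reachable ?_)
      simp [petalGraph, adjR]

omit [DecidableEq I] [DecidableEq P] in
lemma petal_card (hn : ∀ p, 2 ≤ n p) : Fintype.card P ≤ Fintype.card (Vx I P n) := by
  rw [Fintype.card_sum, Fintype.card_sigma]
  refine le_trans ?_ (Nat.le_add_left _ _)
  rw [← Finset.card_univ, Finset.card_eq_sum_ones]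
  apply Finset.sum_le_sum
  intro p _
  rw [Fintype.card_fin]
  have := hn p
  omega

end Generic

section TwoType

variable {A I : Type} [Fintype A] [DecidableEq A] [Fintype I] [DecidableEq I]
variable (r : I → ℕ) (nA : A → ℕ) (nI : I → ℕ)

/-- petals: hub petals `A`, and `r i` petals at the subhub `i` -/
abbrev PT (A I : Type) (r : I → ℕ) : Type := A ⊕ (Σ i : I, Fin (r i))

/-- centre of a petal -/
def kT : PT A I r → Option I
  | .inl _ => none
  | .inr x => some x.1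

/-- number of inner vertices of a petal -/
def nT : PT A I r → ℕ
  | .inl a => nA a
  | .inr x => nI x.1

omit [DecidableEq A] in
lemma Qs_none (μ : ℂ) :
    Qs (kT (A := A) r) (nT r nA nI) μ none = ∑ a : A, 2 / (μ ^ (nA a + 1) + 1) := by
  unfold Qs
  rw [Fintype.sum_sum_type]
  have h2 : (∑ x : (Σ i : I, Fin (r i)), if kT (A := A) r (.inr x) = none then
      2 / (μ ^ (nT r nA nI (.inr x) + 1) + 1) else 0) = 0 := by
    apply Finset.sum_eq_zero
    intro x _
    simp [kT]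
  rw [h2, add_zero]
  apply Finset.sum_congr rfl
  intro a _
  simp [kT, nT]

omit [DecidableEq A] in
lemma Qs_some (μ : ℂ) (i : I) :
    Qs (kT (A := A) r) (nT r nA nI) μ (some i) = r i * (2 / (μ ^ (nI i + 1) + 1)) := by
  unfold Qs
  rw [Fintype.sum_sum_type]
  have h1 : (∑ x : A, if kT (A := A) r (.inl x) = some i then
      2 / (μ ^ (nT r nA nI (.inl x) + 1) + 1) else 0) = 0 := by
    apply Finset.sum_eq_zero
    intro x _
    simp [kT]
  rw [h1, zero_add, Fintype.sum_sigma, Finset.sum_eq_single i]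
  · simp [kT, nT]
  · intro j _ hj
    apply Finset.sum_eq_zero
    intro x _
    simp [kT, hj]
  · simp

omit [DecidableEq A] in
lemma qr_none :
    qr (kT (A := A) r) (nT r nA nI) none = ∑ a : A, 2 / ((2 : ℝ) ^ (nA a + 1) + 1) := by
  unfold qr
  rw [Fintype.sum_sum_type]
  have h2 : (∑ x : (Σ i : I, Fin (r i)), if kT (A := A) r (.inr x) = none then
      2 / ((2 : ℝ) ^ (nT r nA nI (.inr x) + 1) + 1) else 0) = 0 := by
    apply Finset.sum_eq_zero
    intro x _
    simp [kT]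
  rw [h2, add_zero]
  apply Finset.sum_congr rfl
  intro a _
  simp [kT, nT]

omit [DecidableEq A] in
lemma qr_some (i : I) :
    qr (kT (A := A) r) (nT r nA nI) (some i) = r i * (2 / ((2 : ℝ) ^ (nI i + 1) + 1)) := by
  unfold qr
  rw [Fintype.sum_sum_type]
  have h1 : (∑ x : A, if kT (A := A) r (.inl x) = some i then
      2 / ((2 : ℝ) ^ (nT r nA nI (.inl x) + 1) + 1) else 0) = 0 := by
    apply Finset.sum_eq_zero
    intro x _
    simp [kT]
  rw [h1, zero_add, Fintype.sum_sigma, Finset.sum_eq_single i]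
  · simp [kT, nT]
  · intro j _ hj
    apply Finset.sum_eq_zero
    intro x _
    simp [kT, hj]
  · simp

lemma conv1 {μ : ℂ} (hμ : μ ≠ 0) (l : ℕ) : 2 / (μ ^ l + 1) = Pf l μ⁻¹ := by
  unfold Pf
  have h1 : μ⁻¹ ^ l ≠ 0 := pow_ne_zero _ (inv_ne_zero hμ)
  have h2 : 1 + μ⁻¹ ^ l = (μ ^ l + 1) * μ⁻¹ ^ l := by
    rw [add_mul, one_mul, ← mul_pow, mul_inv_cancel₀ hμ, one_pow]
  rw [h2, mul_div_mul_right _ _ h1]

lemma conv_den {μ : ℂ} (hμ : μ ≠ 0) (l : ℕ) (hl : μ ^ l + 1 ≠ 0) (c : ℂ) :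
    (μ ^ 2 - (μ ^ 2 - 1) * (c * (2 / (μ ^ l + 1)))) * ((μ ^ l + 1) * μ⁻¹ ^ (l + 2))
      = 1 + μ⁻¹ ^ l * (1 - 2 * c + 2 * c * μ⁻¹ ^ 2) := by
  have e1 : μ⁻¹ ^ (l + 2) = μ⁻¹ ^ l * μ⁻¹ ^ 2 := pow_add _ _ _
  have e2 : μ ^ 2 * μ⁻¹ ^ 2 = 1 := by rw [← mul_pow, mul_inv_cancel₀ hμ, one_pow]
  have e3 : μ ^ l * μ⁻¹ ^ l = 1 := by rw [← mul_pow, mul_inv_cancel₀ hμ, one_pow]
  rw [e1]
  generalize μ⁻¹ ^ l = w at *
  generalize μ⁻¹ ^ 2 = y at *
  have e4 : (μ ^ 2 - (μ ^ 2 - 1) * (c * (2 / (μ ^ l + 1)))) * ((μ ^ l + 1) * (w * y))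
      = (μ ^ 2 * (μ ^ l + 1) - (μ ^ 2 - 1) * (2 * c)) * (w * y) := by
    field_simp
  rw [e4]
  linear_combination (μ ^ l * w + w - 2 * c * w) * e2 + e3

lemma conv2 {μ : ℂ} (hμ : μ ≠ 0) (l : ℕ) (hl : μ ^ l + 1 ≠ 0) (c : ℂ) :
    (c * (2 / (μ ^ l + 1))) / (μ ^ 2 - (μ ^ 2 - 1) * (c * (2 / (μ ^ l + 1)))) = Sf c l μ⁻¹ := by
  unfold Sf
  rw [← conv_den hμ l hl c]
  have h1 : (μ ^ l + 1) * μ⁻¹ ^ (l + 2) ≠ 0 :=
    mul_ne_zero hl (pow_ne_zero _ (inv_ne_zero hμ))
  rw [← mul_div_mul_right _ _ h1]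
  congr 1
  field_simp

end TwoType

/-- multiplicities and inner vertex counts of the fixed hub petals -/
def mA : Fin 6 → ℕ := ![2, 1, 3, 2, 2, 11]
/-- inner vertex counts -/
def lA : Fin 6 → ℕ := ![2, 3, 4, 7, 9, 11]
/-- multiplicities of the fixed subhubs -/
def mI : Fin 9 → ℕ := ![4, 4, 17, 17, 8, 8, 42, 2, 4]
/-- inner vertex counts -/
def lI : Fin 9 → ℕ := ![3, 4, 8, 10, 14, 18, 22, 6, 10]
/-- number of petals -/
def rI : Fin 9 → ℕ := ![1, 1, 1, 1, 1, 1, 1, 2, 2]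

/-- hub petals -/
abbrev Ak (k : ℕ) : Type := (Σ t : Fin 6, Fin (mA t)) ⊕ (Σ i : Fin k, Fin (2 ^ i.val))
/-- subhubs -/
abbrev Ik (k : ℕ) : Type := (Σ t : Fin 9, Fin (mI t)) ⊕ Fin (2 ^ (k + 1))

/-- number of petals at a subhub -/
def rk (k : ℕ) : Ik k → ℕ
  | .inl x => rI x.1
  | .inr _ => 1

/-- inner vertex counts -/
def nAk (k : ℕ) : Ak k → ℕ
  | .inl x => lA x.1
  | .inr x => 24 * 2 ^ x.1.val - 1

/-- inner vertex counts -/
def nIk (k : ℕ) : Ik k → ℕ
  | .inl x => lI x.1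
  | .inr _ => 24 * 2 ^ k - 2

lemma sumA {K : Type} [Field K] (k : ℕ) (f : ℕ → K) :
    ∑ a : Ak k, f (nAk k a + 1) = 2 * f 3 + 1 * f 4 + 3 * f 5 + 2 * f 8 + 2 * f 10 + 11 * f 12
      + ∑ i ∈ range k, (2 : K) ^ i * f (24 * 2 ^ i) := by
  rw [Fintype.sum_sum_type, Fintype.sum_sigma, Fintype.sum_sigma]
  congr 1
  · simp only [nAk, Finset.sum_const, Finset.card_univ, Fintype.card_fin, nsmul_eq_mul]
    simp only [Fin.sum_univ_succ, mA, lA]
    simp
    ring
  · rw [← Fin.sum_univ_eq_sum_range (fun i => (2 : K) ^ i * f (24 * 2 ^ i)) k]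
    apply Finset.sum_congr rfl
    intro i _
    simp only [nAk, Finset.sum_const, Finset.card_univ, Fintype.card_fin, nsmul_eq_mul]
    have h1 : 1 ≤ 2 ^ i.val := Nat.one_le_two_pow
    have h2 : 24 * 2 ^ i.val - 1 + 1 = 24 * 2 ^ i.val := by omega
    rw [h2]
    push_cast
    rfl

lemma sumI {K : Type} [Field K] (k : ℕ) (f : ℕ → ℕ → K) :
    ∑ i : Ik k, f (rk k i) (nIk k i + 1) = 4 * f 1 4 + 4 * f 1 5 + 17 * f 1 9 + 17 * f 1 11
      + 8 * f 1 15 + 8 * f 1 19 + 42 * f 1 23 + 2 * f 2 7 + 4 * f 2 11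
      + 2 ^ (k + 1) * f 1 (24 * 2 ^ k - 1) := by
  rw [Fintype.sum_sum_type, Fintype.sum_sigma]
  congr 1
  · simp only [rk, nIk, Finset.sum_const, Finset.card_univ, Fintype.card_fin, nsmul_eq_mul]
    simp only [Fin.sum_univ_succ, mI, lI, rI]
    simp
    ring
  · simp only [rk, nIk, Finset.sum_const, Finset.card_univ, Fintype.card_fin, nsmul_eq_mul]
    have h1 : 1 ≤ 2 ^ k := Nat.one_le_two_pow
    have h2 : 24 * 2 ^ k - 2 + 1 = 24 * 2 ^ k - 1 := by omega
    rw [h2]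
    push_cast
    rfl

lemma n_ge (k : ℕ) : ∀ p, 2 ≤ nT (rk k) (nAk k) (nIk k) p := by
  rintro (a | ⟨i, _⟩)
  · rcases a with ⟨t, _⟩ | ⟨i, _⟩
    · simp only [nT, nAk]
      fin_cases t <;> simp [lA]
    · simp only [nT, nAk]
      have h1 : 1 ≤ 2 ^ i.val := Nat.one_le_two_pow
      omega
  · rcases i with ⟨t, _⟩ | _
    · simp only [nT, nIk]
      fin_cases t <;> simp [lI]
    · simp only [nT, nIk]
      have h1 : 1 ≤ 2 ^ k := Nat.one_le_two_pow
      omega

lemma rk_cases (k : ℕ) (i : Ik k) : (rk k i = 1 ∧ 4 ≤ nIk k i + 1) ∨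
    (rk k i = 2 ∧ 7 ≤ nIk k i + 1) := by
  rcases i with ⟨t, _⟩ | _
  · simp only [rk, nIk]
    fin_cases t <;> simp [rI, lI]
  · simp only [rk, nIk]
    have h1 : 1 ≤ 2 ^ k := Nat.one_le_two_pow
    left
    constructor
    · trivial
    · omega

/-- the graphs -/
abbrev Gk (k : ℕ) : SimpleGraph (Vx (Ik k) (PT (Ak k) (Ik k) (rk k)) (nT (rk k) (nAk k) (nIk k))) :=
  petalGraph (kT (A := Ak k) (rk k)) (nT (rk k) (nAk k) (nIk k))

instance gkDec (k : ℕ) : DecidableRel (Gk k).Adj := petalDec _ _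

lemma center_surj (k : ℕ) (a : Option (Ik k)) : ∃ p, kT (A := Ak k) (rk k) p = a := by
  rcases a with _ | i
  · exact ⟨.inl (.inl ⟨0, ⟨0, by simp [mA]⟩⟩), rfl⟩
  · have h : 0 < rk k i := by
      rcases rk_cases k i with h | h <;> omega
    exact ⟨.inr ⟨i, ⟨0, h⟩⟩, rfl⟩

lemma den_ne (k : ℕ) {μ : ℂ} (hμ : (100 / 71 : ℝ) ≤ ‖μ‖) (i : Ik k) :
    dn (kT (A := Ak k) (rk k)) (nT (rk k) (nAk k) (nIk k)) μ i ≠ 0 := by
  have hμ1 : 1 < ‖μ‖ := by
    refine lt_of_lt_of_le ?_ hμ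
    norm_num
  have hμ0 : μ ≠ 0 := by
    rintro rfl
    simp at hμ1
    linarith
  have hz : ‖μ⁻¹‖ ≤ 71 / 100 := by
    rw [norm_inv, inv_le_comm₀ (by linarith) (by norm_num)]
    refine le_trans ?_ hμ
    norm_num
  unfold dn
  rw [Qs_some]
  have hl := pow_add_one_ne hμ1 (nIk k i + 1) (by omega)
  intro h
  have h1 := conv_den hμ0 (nIk k i + 1) hl (rk k i)
  rw [h, zero_mul] at h1
  rcases rk_cases k i with ⟨h2, h3⟩ | ⟨h2, h3⟩
  · rw [h2] at h1
    push_cast at h1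
    exact denS1_ne hz _ (by omega) h1.symm
  · rw [h2] at h1
    push_cast at h1
    exact denS2_ne hz _ (by omega) h1.symm

lemma Phi_eq (k : ℕ) {μ : ℂ} (hμ : 1 < ‖μ‖) :
    Phi (kT (A := Ak k) (rk k)) (nT (rk k) (nAk k) (nIk k)) μ
      = fsV μ⁻¹ base - 2 * Sf 1 23 μ⁻¹ + Tk k μ⁻¹ := by
  have hμ0 : μ ≠ 0 := by
    rintro rfl
    simp at hμ
    linarith
  unfold Phi
  rw [Qs_none]
  have h1 : ∀ i : Ik k, Qs (kT (A := Ak k) (rk k)) (nT (rk k) (nAk k) (nIk k)) μ (some i)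
      / dn (kT (A := Ak k) (rk k)) (nT (rk k) (nAk k) (nIk k)) μ i
      = Sf (rk k i) (nIk k i + 1) μ⁻¹ := by
    intro i
    unfold dn
    rw [Qs_some]
    exact conv2 hμ0 _ (pow_add_one_ne hμ _ (by omega)) _
  rw [Finset.sum_congr rfl fun i _ => h1 i]
  have h2 : ∀ a : Ak k, 2 / (μ ^ (nAk k a + 1) + 1) = Pf (nAk k a + 1) μ⁻¹ :=
    fun a => conv1 hμ0 _
  rw [Finset.sum_congr rfl fun a _ => h2 a]
  rw [sumA k (fun l => Pf l μ⁻¹), sumI k (fun r l => Sf (r : ℂ) l μ⁻¹), base_val]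
  unfold Tk
  push_cast
  ring

lemma real_tail (k : ℕ) :
    (∑ i ∈ range k, (2 : ℝ) ^ i * (2 / ((2 : ℝ) ^ (24 * 2 ^ i) + 1)))
      + 2 ^ (k + 1) * (1 / ((2 : ℝ) ^ (24 * 2 ^ k) - 1)) = 2 / ((2 : ℝ) ^ 24 - 1) := by
  induction k with
  | zero => norm_num
  | succ k ih =>
    rw [Finset.sum_range_succ, ← ih]
    have e : (2 : ℝ) ^ (24 * 2 ^ (k + 1)) = ((2 : ℝ) ^ (24 * 2 ^ k)) ^ 2 := by
      rw [← pow_mul]; congr 1; ring
    rw [e]
    have h1 : (1 : ℝ) < (2 : ℝ) ^ (24 * 2 ^ k) := by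
      apply one_lt_pow₀ (by norm_num)
      have : 1 ≤ 2 ^ k := Nat.one_le_two_pow
      omega
    generalize (2 : ℝ) ^ (24 * 2 ^ k) = X at *
    have h2 : X - 1 ≠ 0 := by intro h; linarith
    have h3 : X + 1 ≠ 0 := by intro h; linarith
    have h4 : X ^ 2 - 1 ≠ 0 := by
      have : X ^ 2 - 1 = (X - 1) * (X + 1) := by ring
      rw [this]
      exact mul_ne_zero h2 h3
    have h5 : (2 : ℝ) / (X + 1) + 4 * (1 / (X ^ 2 - 1)) = 2 * (1 / (X - 1)) := by
      field_simp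
      ring
    have h6 : (2 : ℝ) ^ k * (2 / (X + 1)) + 2 ^ (k + 1 + 1) * (1 / (X ^ 2 - 1))
        = 2 ^ (k + 1) * (1 / (X - 1)) := by
      have h7 : (2 : ℝ) ^ (k + 1 + 1) = 2 ^ k * 4 := by rw [pow_succ, pow_succ]; ring
      have h8 : (2 : ℝ) ^ (k + 1) = 2 ^ k * 2 := by rw [pow_succ]
      rw [h7, h8]
      linear_combination (2 : ℝ) ^ k * h5
    linear_combination h6

lemma real_hub (k : ℕ) :
    qr (kT (A := Ak k) (rk k)) (nT (rk k) (nAk k) (nIk k)) none
      + ∑ i : Ik k, qr (kT (A := Ak k) (rk k)) (nT (rk k) (nAk k) (nIk k)) (some i)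
        / (4 - 3 * qr (kT (A := Ak k) (rk k)) (nT (rk k) (nAk k) (nIk k)) (some i)) = 1 := by
  rw [qr_none]
  simp only [qr_some]
  rw [sumA k (fun l => 2 / ((2 : ℝ) ^ l + 1)),
    sumI k (fun r l => ((r : ℝ) * (2 / ((2 : ℝ) ^ l + 1)))
      / (4 - 3 * ((r : ℝ) * (2 / ((2 : ℝ) ^ l + 1)))))]
  have h1 : (((1 : ℕ) : ℝ) * (2 / ((2 : ℝ) ^ (24 * 2 ^ k - 1) + 1)))
      / (4 - 3 * (((1 : ℕ) : ℝ) * (2 / ((2 : ℝ) ^ (24 * 2 ^ k - 1) + 1))))
      = 1 / ((2 : ℝ) ^ (24 * 2 ^ k) - 1) := by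
    have hk : 1 ≤ 2 ^ k := Nat.one_le_two_pow
    have e : (2 : ℝ) ^ (24 * 2 ^ k) = 2 * (2 : ℝ) ^ (24 * 2 ^ k - 1) := by
      rw [← pow_succ']
      congr 1
      omega
    have h2 : (1 : ℝ) < (2 : ℝ) ^ (24 * 2 ^ k - 1) := by
      apply one_lt_pow₀ (by norm_num)
      omega
    rw [e]
    generalize (2 : ℝ) ^ (24 * 2 ^ k - 1) = X at *
    have h3 : X + 1 ≠ 0 := by intro h; linarith
    have h4 : 2 * X - 1 ≠ 0 := by intro h; linarith
    have h5 : 4 - 3 * (((1 : ℕ) : ℝ) * (2 / (X + 1))) = 2 * (2 * X - 1) / (X + 1) := by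
      push_cast
      field_simp
      ring
    rw [h5]
    push_cast
    field_simp
  rw [h1]
  have h6 := real_tail k
  norm_num at h6 ⊢
  linarith

lemma qr_bounds (k : ℕ) (i : Ik k) :
    0 < qr (kT (A := Ak k) (rk k)) (nT (rk k) (nAk k) (nIk k)) (some i) ∧
      qr (kT (A := Ak k) (rk k)) (nT (rk k) (nAk k) (nIk k)) (some i) < 1 := by
  rw [qr_some]
  have h : ∀ m l : ℕ, 0 < m → m ≤ 2 → 4 ≤ l → 0 < (m : ℝ) * (2 / ((2 : ℝ) ^ l + 1)) ∧
      (m : ℝ) * (2 / ((2 : ℝ) ^ l + 1)) < 1 := by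
    intro m l h0 h1 h2
    have h3 : (2 : ℝ) ^ 4 ≤ 2 ^ l := pow_le_pow_right₀ (by norm_num) h2
    have h4 : (0 : ℝ) < m := by exact_mod_cast h0
    have h5 : (m : ℝ) ≤ 2 := by exact_mod_cast h1
    have h6 : (0 : ℝ) < (2 : ℝ) ^ l + 1 := by positivity
    refine ⟨by positivity, ?_⟩
    rw [mul_div_assoc', div_lt_one h6]
    norm_num at h3
    linarith
  rcases rk_cases k i with ⟨h1, h2⟩ | ⟨h1, h2⟩
  · exact h _ _ (by omega) (by omega) (by omega)
  · exact h _ _ (by omega) (by omega) (by omega)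

/-- The family: first modulus `2`, second modulus below `100/71`. -/
lemma family (k : ℕ) :
    (nbModuli (Gk k))[0]? = some 2 ∧ ∃ x, (nbModuli (Gk k))[1]? = some x ∧ x < 100 / 71 := by
  apply petal_main (n_ge k) (fun i => (qr_bounds k i).2) (fun i => (qr_bounds k i).1)
    (real_hub k) (by norm_num) (by norm_num)
  · intro μ hμ i
    exact den_ne k hμ i
  · intro μ hμ h
    have hμ1 : 1 < ‖μ‖ := by
      refine lt_of_lt_of_le ?_ hμ
      norm_num
    rw [Phi_eq k hμ1] at h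
    have hz : ‖μ⁻¹‖ ≤ 71 / 100 := by
      rw [norm_inv, inv_le_comm₀ (by linarith) (by norm_num)]
      refine le_trans ?_ hμ
      norm_num
    have h1 := nonvanish hz k h
    rw [inv_eq_iff_eq_inv] at h1
    rw [h1]
    norm_num
  · exact ⟨.inl (.inl ⟨0, ⟨0, by simp [mA]⟩⟩)⟩

lemma family_card (k : ℕ) : k ≤ Fintype.card
    (Vx (Ik k) (PT (Ak k) (Ik k) (rk k)) (nT (rk k) (nAk k) (nIk k))) := by
  refine le_trans ?_ (petal_card (n_ge k))
  have h1 : Fintype.card (Ak k) ≤ Fintype.card (PT (Ak k) (Ik k) (rk k)) :=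
    Fintype.card_le_of_injective (Sum.inl : Ak k → PT (Ak k) (Ik k) (rk k)) Sum.inl_injective
  refine le_trans ?_ h1
  rw [Fintype.card_sum]
  refine le_trans ?_ (Nat.le_add_left _ _)
  rw [Fintype.card_sigma]
  calc k = ∑ i : Fin k, 1 := by simp
    _ ≤ ∑ i : Fin k, Fintype.card (Fin (2 ^ i.val)) := by
        apply Finset.sum_le_sum
        intro i _
        rw [Fintype.card_fin]
        exact Nat.one_le_two_pow

/-- The negated form of the question, with `ρ = 2` and `ε = 1/200`. -/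
theorem result : ∀ N : ℕ, ∃ (V : Type) (_ : Fintype V) (_ : DecidableEq V)
    (G : SimpleGraph V) (_ : DecidableRel G.Adj),
    G.Connected ∧ (∀ v, 2 ≤ G.degree v) ∧ N ≤ Fintype.card V ∧
    (nbModuli G)[0]? = some 2 ∧ ∃ x, (nbModuli G)[1]? = some x ∧ x < √2 - 1 / 200 := by
  intro N
  refine ⟨Vx (Ik N) (PT (Ak N) (Ik N) (rk N)) (nT (rk N) (nAk N) (nIk N)), inferInstance,
    inferInstance, Gk N, inferInstance, petal_connected _ _,
    petal_degree (n_ge N) (center_surj N), family_card N, (family N).1, ?_⟩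
  obtain ⟨x, hx, hlt⟩ := (family N).2
  refine ⟨x, hx, hlt.trans ?_⟩
  have h3 : (1 / 200 + 100 / 71 : ℝ) < √2 := by
    apply Real.lt_sqrt_of_sq_lt
    norm_num
  linarith

end Pool.Agent.Results.MP_d250d1_co.Disproof
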